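import Pool.Agent.H881R4.Shadow3

/-!
# Covering shadows of cones and double cones
-/

set_option autoImplicit false

open MeasureTheory Set
open scoped ENNReal Pointwise

namespace Pool.Agent.H881R4.Shadow

/-- coordinates with the first axis in the direction of a given unit vector -/
theorem frame (m : ℕ) (u : E (m + 1)) (hu : ‖u‖ = 1) :
    ∃ Q : (ℝ × (Fin m → ℝ)) ≃L[ℝ] E (m + 1), MeasurePreserving Q volume volume ∧
      Q (1, 0) = u := by
  let P0 : (ℝ × (Fin m → ℝ)) ≃ₗ[ℝ] E (m + 1) :=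
    { toFun := Psi m
      invFun := Phi m
      left_inv := Phi_Psi m
      right_inv := Psi_Phi m
      map_add' := by
        intro p q
        ext i
        refine Fin.cases ?_ (fun j => ?_) i
        · simp [Psi_zero]
        · simp [Psi_succ]
      map_smul' := by
        intro c p
        ext i
        refine Fin.cases ?_ (fun j => ?_) i
        · simp [Psi_zero]
        · simp [Psi_succ] }
  have hP0 : Psi m (1, 0) = EuclideanSpace.single 0 (1 : ℝ) := by
    ext i
    refine Fin.cases ?_ (fun j => ?_) i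
    · simp [Psi_zero]
    · simp [Psi_succ]
  have hn : ‖EuclideanSpace.single (0 : Fin (m + 1)) (1 : ℝ)‖ = ‖u‖ := by
    rw [hu]; simp
  let T : E (m + 1) ≃ₗᵢ[ℝ] E (m + 1) :=
    (Submodule.span ℝ {EuclideanSpace.single (0 : Fin (m + 1)) (1 : ℝ) - u})ᗮ.reflection
  have hT : T (EuclideanSpace.single (0 : Fin (m + 1)) (1 : ℝ)) = u :=
    Submodule.reflection_sub hn
  refine ⟨P0.toContinuousLinearEquiv.trans T.toContinuousLinearEquiv, ?_, ?_⟩
  · exact T.measurePreserving.comp (Psi_mp m)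
  · change T (Psi m (1, 0)) = u
    rw [hP0, hT]

/-- lengths of chords: every chord of `K` has a translate in `L` -/
theorem chord {n : ℕ} (hn : 2 ≤ n) {K L : Set (E n)} (hLc : IsCompact L) (hL : Convex ℝ L)
    (h : Covers K L) {k w : E n} (hk : k ∈ K) (hkw : k + w ∈ K) :
    ∃ l ∈ L, l + w ∈ L := by
  let DL : Set (E n) := (fun p : E n × E n => p.2 - p.1) '' (L ×ˢ L)
  have hDc : IsCompact DL := (hLc.prod hLc).image (by fun_prop)
  have hDv : Convex ℝ DL := by
    have := (hL.prod hL).is_linear_image (f := fun p : E n × E n => p.2 - p.1)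
      ⟨fun x y => by simp only [Prod.fst_add, Prod.snd_add]; abel,
        fun c x => by simp only [Prod.smul_fst, Prod.smul_snd, smul_sub]⟩
    exact this
  by_contra hcon
  have hw : w ∉ DL := by
    rintro ⟨⟨l, l'⟩, ⟨hl, hl'⟩, he⟩
    simp only at he
    apply hcon
    refine ⟨l, hl, ?_⟩
    rw [← he]
    simpa using hl'
  obtain ⟨f, c, hf1, hf2⟩ := geometric_hahn_banach_closed_point hDv hDc.isClosed hw
  let N : E n := (InnerProductSpace.toDual ℝ (E n)).symm f
  have hfN : ∀ y, f y = inner ℝ y N := by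
    intro y
    rw [real_inner_comm]
    exact (InnerProductSpace.toDual_symm_apply).symm
  obtain ⟨u, hu, huN⟩ : ∃ u : E n, ‖u‖ = 1 ∧ inner ℝ u N = (0 : ℝ) := by
    have hne : (Submodule.span ℝ {N})ᗮ ≠ ⊥ := by
      intro h0
      have h1 := (Submodule.orthogonal_eq_bot_iff).1 h0
      have h2 : Module.finrank ℝ (Submodule.span ℝ ({N} : Set (E n))) ≤ 1 := by
        simpa using finrank_span_le_card (R := ℝ) ({N} : Set (E n))
      rw [h1, finrank_top, finrank_euclideanSpace, Fintype.card_fin] at h2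
      omega
    obtain ⟨w0, hw0, hw1⟩ := Submodule.exists_mem_ne_zero_of_ne_bot hne
    have hwn : ‖w0‖ ≠ 0 := norm_ne_zero_iff.2 hw1
    refine ⟨(‖w0‖)⁻¹ • w0, ?_, ?_⟩
    · rw [norm_smul, norm_inv, norm_norm, inv_mul_cancel₀ hwn]
    · rw [real_inner_smul_left, real_inner_comm,
        Submodule.mem_orthogonal_singleton_iff_inner_right.1 hw0, mul_zero]
  obtain ⟨v, _, hcov⟩ := h u hu
  obtain ⟨y, hy, s, hs⟩ := hcov k hk
  obtain ⟨y', hy', s', hs'⟩ := hcov (k + w) hkw
  have h1 : f (y' - y) < c := hf1 _ ⟨(y, y'), ⟨hy, hy'⟩, rfl⟩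
  have h2 : f (y' - y) = f w := by
    have : y' - y = w + (s - s') • u := by
      have e1 : y' = k + w + v - s' • u := by rw [hs']; abel
      have e2 : y = k + v - s • u := by rw [hs]; abel
      rw [e1, e2, sub_smul]
      abel
    rw [this, hfN, hfN, inner_add_left, real_inner_smul_left, huN, mul_zero, add_zero]
  linarith

/-- the chord-length sets of a body contain scaled copies of the shadow -/
theorem D_lower {m : ℕ} {C : Set (ℝ × (Fin m → ℝ))} (hC : Convex ℝ C) {M s : ℝ} (hM : 0 < M)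
    (hn : (D C M).Nonempty) (h0 : 0 ≤ s) (h1 : s ≤ M) :
    ENNReal.ofReal ((1 - s / M) ^ m) * volume (D C 0) ≤ volume (D C s) := by
  obtain ⟨y0, hy0⟩ := hn
  have hr0 : 0 ≤ s / M := div_nonneg h0 hM.le
  have hr1 : s / M ≤ 1 := (div_le_one hM).2 h1
  have hsub : ((s / M) • y0) +ᵥ ((1 - s / M) • D C 0) ⊆ D C s := by
    rintro _ ⟨_, ⟨y, hy, rfl⟩, rfl⟩
    have := D_conv hC hr0 hr1 hy hy0
    rw [mul_zero, zero_add, div_mul_cancel₀ _ hM.ne'] at this
    change (s / M) • y0 + (1 - s / M) • y ∈ D C s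
    rw [add_comm]
    exact this
  calc ENNReal.ofReal ((1 - s / M) ^ m) * volume (D C 0)
      = volume (((s / M) • y0) +ᵥ ((1 - s / M) • D C 0)) := by
        rw [measure_vadd, Measure.addHaar_smul, Module.finrank_fin_fun,
          abs_of_nonneg (pow_nonneg (sub_nonneg.2 hr1) m)]
    _ ≤ _ := measure_mono hsub

/-- volume of a body in terms of the chord-length sets -/
theorem vol_eq {m : ℕ} {C : Set (ℝ × (Fin m → ℝ))} (hCc : IsCompact C) (hC : Convex ℝ C)
    {M : ℝ} (hM : ∀ s, M < s → D C s = ∅) :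
    volume C = ∫⁻ s in Icc 0 M, volume (D C s) := by
  have := W_vol hCc hC MeasurableSet.univ
  rw [W_slice hCc MeasurableSet.univ hM] at this
  simpa only [univ_prod_univ, inter_univ] using this

/-- **Cones and double cones.** `K` is the convex hull of a convex set `K0` in a hyperplane and two
points `p, q` such that the segment from `q` to `p` meets `K0`. -/
theorem cone {n : ℕ} (hn : 2 ≤ n) {K L K0 : Set (E n)} (hKc : IsCompact K) (hK : Convex ℝ K)
    (hLc : IsCompact L) (hL : Convex ℝ L) (h : Covers K L) (hK0 : Convex ℝ K0) {p q z ν : E n}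
    {c : ℝ} (hKe : K = convexHull ℝ (K0 ∪ {p, q})) (hν : ∀ k ∈ K0, inner ℝ ν k = c)
    (hz : z ∈ K0) (hzs : z ∈ segment ℝ q p) (hpq : (inner ℝ ν p : ℝ) ≠ inner ℝ ν q) :
    volume K ≤ volume L := by
  obtain ⟨m, rfl⟩ : ∃ m, n = m + 1 := ⟨n - 1, by omega⟩
  have hK0K : K0 ⊆ K := by
    rw [hKe]; exact subset_union_left.trans (subset_convexHull ℝ _)
  have hpK : p ∈ K := by
    rw [hKe]; exact subset_convexHull ℝ _ (by simp)
  have hqK : q ∈ K := by
    rw [hKe]; exact subset_convexHull ℝ _ (by simp)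
  have hne : p - q ≠ 0 := by
    intro h0
    rw [sub_eq_zero] at h0
    exact hpq (by rw [h0])
  set M : ℝ := ‖p - q‖ with hM
  have hM0 : 0 < M := norm_pos_iff.2 hne
  set u : E (m + 1) := M⁻¹ • (p - q) with hu
  have hu1 : ‖u‖ = 1 := by
    rw [hu, norm_smul, norm_inv, Real.norm_of_nonneg hM0.le, ← hM, inv_mul_cancel₀ hM0.ne']
  have hpqu : p = q + M • u := by
    rw [hu, smul_smul, mul_inv_cancel₀ hM0.ne', one_smul]
    abel
  have hνu : (inner ℝ ν u : ℝ) ≠ 0 := by
    intro h0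
    apply hpq
    rw [hpqu, inner_add_right, real_inner_smul_right, h0, mul_zero, add_zero]
  obtain ⟨τ, hτ0, hτ1, hzτ⟩ : ∃ τ : ℝ, 0 ≤ τ ∧ τ ≤ 1 ∧ z = q + (τ * M) • u := by
    rw [segment_eq_image'] at hzs
    obtain ⟨τ, hτ, he⟩ := hzs
    refine ⟨τ, hτ.1, hτ.2, ?_⟩
    rw [← he]
    simp only
    rw [mul_smul, hu, smul_smul M, mul_inv_cancel₀ hM0.ne', one_smul]
  obtain ⟨Q, hQm, hQ1⟩ := frame m u hu1
  have hQadd : ∀ (x s : ℝ) (y : Fin m → ℝ), Q (x + s, y) = Q (x, y) + s • u := by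
    intro x s y
    rw [← hQ1, ← map_smul, ← map_add]
    congr 1
    simp
  -- the bodies in coordinates
  set CK : Set (ℝ × (Fin m → ℝ)) := Q ⁻¹' K with hCK
  set CL : Set (ℝ × (Fin m → ℝ)) := Q ⁻¹' L with hCL
  have hCKc : IsCompact CK := Q.toHomeomorph.isCompact_preimage.2 hKc
  have hCLc : IsCompact CL := Q.toHomeomorph.isCompact_preimage.2 hLc
  have hCKv : Convex ℝ CK := hK.linear_preimage (Q : (ℝ × (Fin m → ℝ)) →ₗ[ℝ] E (m + 1))
  have hCLv : Convex ℝ CL := hL.linear_preimage (Q : (ℝ × (Fin m → ℝ)) →ₗ[ℝ] E (m + 1))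
  have e1 : volume CK = volume K := hQm.measure_preimage hKc.measurableSet.nullMeasurableSet
  have e2 : volume CL = volume L := hQm.measure_preimage hLc.measurableSet.nullMeasurableSet
  -- projection along `u`
  let π : E (m + 1) →ₗ[ℝ] (Fin m → ℝ) :=
    (LinearMap.snd ℝ ℝ (Fin m → ℝ)).comp (Q.symm : E (m + 1) →ₗ[ℝ] (ℝ × (Fin m → ℝ)))
  have hπQ : ∀ x y, π (Q (x, y)) = y := by
    intro x y
    simp [π]
  have hπu : π u = 0 := by
    rw [← hQ1, hπQ]
  set B0 : Set (Fin m → ℝ) := π '' K0 with hB0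
  have hB0v : Convex ℝ B0 := hK0.linear_image π
  have hπz : π z = π q := by rw [hzτ, map_add, map_smul, hπu, smul_zero, add_zero]
  have hπp : π p = π q := by rw [hpqu, map_add, map_smul, hπu, smul_zero, add_zero]
  -- height
  let hh : E (m + 1) → ℝ := fun x => ((inner ℝ ν x : ℝ) - c) / inner ℝ ν u
  have hhu : ∀ (x : E (m + 1)) (s : ℝ), hh (x + s • u) = hh x + s := by
    intro x s
    simp only [hh, inner_add_right, real_inner_smul_right]
    field_simp
    ring
  have hh0 : ∀ k ∈ K0, hh k = 0 := by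
    intro k hk
    simp only [hh, hν k hk, sub_self, zero_div]
  have hhq : hh q = -(τ * M) := by
    have h1 := hh0 z hz
    rw [hzτ, hhu] at h1
    linarith
  have hhp : hh p = (1 - τ) * M := by
    rw [hpqu, hhu, hhq]
    ring
  have hhaff : ∀ (x y : E (m + 1)) (a b : ℝ), a + b = 1 → hh (a • x + b • y) =
      a * hh x + b * hh y := by
    intro x y a b hab
    simp only [hh, inner_add_right, real_inner_smul_right]
    have : c = (a + b) * c := by rw [hab, one_mul]
    field_simp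
    linear_combination -this
  -- the comparison set
  have hsup : K ⊆ {x | ∃ ρ : ℝ, 0 ≤ ρ ∧ ρ ≤ 1 ∧ π x ∈ (1 - ρ) • B0 + {ρ • π q} ∧
      -(ρ * (τ * M)) ≤ hh x ∧ hh x ≤ ρ * ((1 - τ) * M)} := by
    rw [hKe]
    apply convexHull_min
    · rintro x (hx | hx | hx)
      · refine ⟨0, le_refl _, zero_le_one, ?_, ?_, ?_⟩
        · rw [sub_zero, one_smul, zero_smul]
          exact ⟨π x, ⟨x, hx, rfl⟩, 0, rfl, by simp⟩
        · rw [hh0 x hx]; simp
        · rw [hh0 x hx]; simp
      · rw [hx]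
        refine ⟨1, zero_le_one, le_refl _, ?_, ?_, ?_⟩
        · exact ⟨0, ⟨π z, ⟨z, hz, rfl⟩, by simp⟩, π q, by simp, by
            change 0 + π q = π p
            rw [zero_add, hπp]⟩
        · rw [hhp]
          have : 0 ≤ τ * M := by positivity
          have h2 : 0 ≤ (1 - τ) * M := mul_nonneg (by linarith) hM0.le
          linarith
        · rw [hhp, one_mul]
      · rw [mem_singleton_iff] at hx
        rw [hx]
        refine ⟨1, zero_le_one, le_refl _, ?_, ?_, ?_⟩
        · exact ⟨0, ⟨π z, ⟨z, hz, rfl⟩, by simp⟩, π q, by simp, by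
            change 0 + π q = π q
            rw [zero_add]⟩
        · rw [hhq, one_mul]
        · rw [hhq]
          have : 0 ≤ τ * M := by positivity
          have h2 : 0 ≤ (1 - τ) * M := mul_nonneg (by linarith) hM0.le
          linarith
    · rintro x ⟨ρ, h0, h1, h2, h3, h4⟩ y ⟨ρ', h0', h1', h2', h3', h4'⟩ a b ha hb hab
      refine ⟨a * ρ + b * ρ', by positivity, by nlinarith, ?_, ?_, ?_⟩
      · have e : 1 - (a * ρ + b * ρ') = a * (1 - ρ) + b * (1 - ρ') := by
          linear_combination -hab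
        rw [e, hB0v.add_smul (mul_nonneg ha (by linarith)) (mul_nonneg hb (by linarith))]
        obtain ⟨_, ⟨y1, hy1, rfl⟩, _, hr1, he1⟩ := h2
        obtain ⟨_, ⟨y2, hy2, rfl⟩, _, hr2, he2⟩ := h2'
        rw [mem_singleton_iff] at hr1 hr2
        subst hr1 hr2
        simp only at he1 he2
        refine ⟨(a * (1 - ρ)) • y1 + (b * (1 - ρ')) • y2,
          ⟨_, ⟨y1, hy1, rfl⟩, _, ⟨y2, hy2, rfl⟩, rfl⟩, _, rfl, ?_⟩
        rw [map_add, map_smul, map_smul, ← he1, ← he2]
        module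
      · rw [hhaff x y a b hab]
        nlinarith [mul_le_mul_of_nonneg_left h3 ha, mul_le_mul_of_nonneg_left h3' hb]
      · rw [hhaff x y a b hab]
        nlinarith [mul_le_mul_of_nonneg_left h4 ha, mul_le_mul_of_nonneg_left h4' hb]
  -- the chord-length sets of `K`
  have hD : ∀ s : ℝ, 0 ≤ s → ∀ y ∈ D CK s, s ≤ M ∧
      y ∈ ((s / M) • π q) +ᵥ ((1 - s / M) • B0) := by
    rintro s hs y ⟨x, hx1, hx2⟩
    have hmem : ∀ x' : ℝ, (x', y) ∈ CK → ∃ ρ : ℝ, 0 ≤ ρ ∧ ρ ≤ 1 ∧
        y ∈ (1 - ρ) • B0 + {ρ • π q} ∧ -(ρ * (τ * M)) ≤ hh (Q (x', y)) ∧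
        hh (Q (x', y)) ≤ ρ * ((1 - τ) * M) := by
      intro x' hx'
      obtain ⟨ρ, h0, h1, h2, h3, h4⟩ := hsup hx'
      rw [hπQ] at h2
      exact ⟨ρ, h0, h1, h2, h3, h4⟩
    obtain ⟨ρ, h0, h1, h2, h3, h4⟩ := hmem x hx1
    obtain ⟨ρ', h0', h1', h2', h3', h4'⟩ := hmem (x + s) hx2
    rw [hQadd, hhu] at h4'
    have hs1 : s ≤ ρ * (τ * M) + ρ' * ((1 - τ) * M) := by linarith
    have hτM : 0 ≤ τ * M := by positivity
    have hτM' : 0 ≤ (1 - τ) * M := mul_nonneg (by linarith) hM0.le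
    have hmax : ∃ r : ℝ, r ≤ 1 ∧ s ≤ r * M ∧ y ∈ (1 - r) • B0 + {r • π q} := by
      rcases le_total ρ ρ' with hle | hle
      · refine ⟨ρ', h1', ?_, h2'⟩
        nlinarith [mul_le_mul_of_nonneg_right hle hτM]
      · refine ⟨ρ, h1, ?_, h2⟩
        nlinarith [mul_le_mul_of_nonneg_right hle hτM']
    obtain ⟨r, hr1, hr2, hr3⟩ := hmax
    have hsM : s ≤ M := hr2.trans (by nlinarith)
    refine ⟨hsM, ?_⟩
    have hσ : s / M ≤ r := (div_le_iff₀ hM0).2 hr2
    obtain ⟨_, ⟨y1, hy1, rfl⟩, _, hy2, hy3⟩ := hr3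
    rw [mem_singleton_iff] at hy2
    subst hy2
    simp only at hy3
    have e : 1 - s / M = (1 - r) + (r - s / M) := by ring
    rw [e, hB0v.add_smul (by linarith) (by linarith)]
    refine ⟨(1 - r) • y1 + (r - s / M) • π z,
      ⟨_, ⟨y1, hy1, rfl⟩, _, ⟨π z, ⟨z, hz, rfl⟩, rfl⟩, rfl⟩, ?_⟩
    change (s / M) • π q + ((1 - r) • y1 + (r - s / M) • π z) = y
    rw [← hy3, hπz]
    module
  have hKempty : ∀ s, M < s → D CK s = ∅ := by
    intro s hs
    rw [Set.eq_empty_iff_forall_notMem]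
    intro y hy
    have := (hD s (hM0.le.trans hs.le) y hy).1
    linarith
  -- the chord of length `M` in `L`
  obtain ⟨l, hl, hlM⟩ := chord hn hLc hL h hqK (by rw [← hpqu]; exact hpK)
  have hLM : (D CL M).Nonempty := by
    refine ⟨(Q.symm l).2, (Q.symm l).1, ?_, ?_⟩
    · change Q ((Q.symm l).1, (Q.symm l).2) ∈ L
      simpa using hl
    · change Q ((Q.symm l).1 + M, (Q.symm l).2) ∈ L
      rw [hQadd]
      simpa using hlM
  obtain ⟨ML, hML0, hMLn, hML⟩ := exists_max hCLc ⟨Q.symm l, by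
    change Q (Q.symm l) ∈ L
    simpa using hl⟩
  have hMML : M ≤ ML := by
    by_contra hcon
    rw [hML M (not_le.1 hcon)] at hLM
    exact not_nonempty_empty hLM
  -- the shadow
  obtain ⟨v, _, hcov⟩ := h u hu1
  have hB : volume B0 ≤ volume (D CL 0) := by
    have hsub : B0 ⊆ (-π v) +ᵥ D CL 0 := by
      rintro _ ⟨k, hk, rfl⟩
      obtain ⟨y, hy, s, hs⟩ := hcov k (hK0K hk)
      refine ⟨π y, ⟨(Q.symm y).1, ?_, ?_⟩, ?_⟩
      · change Q ((Q.symm y).1, π y) ∈ L
        have : ((Q.symm y).1, π y) = Q.symm y := rfl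
        rw [this]
        simpa using hy
      · change Q ((Q.symm y).1 + 0, π y) ∈ L
        rw [add_zero]
        have : ((Q.symm y).1, π y) = Q.symm y := rfl
        rw [this]
        simpa using hy
      · have := congrArg π hs
        rw [map_add, map_add, map_smul, hπu, smul_zero, add_zero] at this
        change -π v + π y = π k
        rw [← this]
        abel
    calc volume B0 ≤ volume ((-π v) +ᵥ D CL 0) := measure_mono hsub
      _ = _ := measure_vadd _ _ _
  rw [← e1, ← e2, vol_eq hCKc hCKv hKempty, vol_eq hCLc hCLv hML]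
  calc ∫⁻ s in Icc 0 M, volume (D CK s) ≤ ∫⁻ s in Icc 0 M, volume (D CL s) := by
        refine setLIntegral_mono' measurableSet_Icc fun s hs => ?_
        have hr1 : s / M ≤ 1 := (div_le_one hM0).2 hs.2
        calc volume (D CK s) ≤ volume (((s / M) • π q) +ᵥ ((1 - s / M) • B0)) :=
              measure_mono fun y hy => (hD s hs.1 y hy).2
          _ = ENNReal.ofReal ((1 - s / M) ^ m) * volume B0 := by
              rw [measure_vadd, Measure.addHaar_smul, Module.finrank_fin_fun,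
                abs_of_nonneg (pow_nonneg (sub_nonneg.2 hr1) m)]
          _ ≤ ENNReal.ofReal ((1 - s / M) ^ m) * volume (D CL 0) := by gcongr
          _ ≤ _ := D_lower hCLv hM0 hLM hs.1 hs.2
    _ ≤ ∫⁻ s in Icc 0 ML, volume (D CL s) :=
        lintegral_mono_set (Icc_subset_Icc_right hMML)

end Pool.Agent.H881R4.Shadow
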