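import Pool.Agent.H881R4.Shadow1

/-!
# Covering shadows, in terms of orthogonal projections
-/

set_option autoImplicit false

namespace Pool.Agent.H881R4.Shadow

theorem covers_of_proj {n : ℕ} {K L : Set (E n)}
    (h : ∀ u : E n, ‖u‖ = 1 → ∃ v ∈ (Submodule.span ℝ {u})ᗮ,
      ∀ p ∈ (Submodule.span ℝ {u})ᗮ.starProjection '' K,
        p + v ∈ (Submodule.span ℝ {u})ᗮ.starProjection '' L) : Covers K L := by
  intro u hu
  obtain ⟨v, hv, hcov⟩ := h u hu
  have hstar : ∀ x : E n,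
      (Submodule.span ℝ {u})ᗮ.starProjection x = x - (inner ℝ u x : ℝ) • u := by
    intro x
    rw [Submodule.starProjection_orthogonal_val, Submodule.starProjection_unit_singleton ℝ hu]
  refine ⟨v, ?_, ?_⟩
  · rw [real_inner_comm]
    exact (Submodule.mem_orthogonal_singleton_iff_inner_right.1 hv)
  · intro x hx
    obtain ⟨y, hy, he⟩ := hcov _ ⟨x, hx, rfl⟩
    refine ⟨y, hy, (inner ℝ u x : ℝ) - inner ℝ u y, ?_⟩
    rw [hstar, hstar] at he
    rw [sub_smul]
    have h1 : y = x - (inner ℝ u x : ℝ) • u + v + (inner ℝ u y : ℝ) • u := by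
      rw [← he]; abel
    calc x + v = (x - (inner ℝ u x : ℝ) • u + v + (inner ℝ u y : ℝ) • u) +
          ((inner ℝ u x : ℝ) • u - (inner ℝ u y : ℝ) • u) := by abel
      _ = y + ((inner ℝ u x : ℝ) • u - (inner ℝ u y : ℝ) • u) := by rw [← h1]

end Pool.Agent.H881R4.Shadow
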