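import Mathlib

/-!
# Covering shadows and containment

If `L` covers the shadows of `K` in dimension `n ≥ 2`, then a translate of `K` lies in
`(n/(n-1)) L`.
-/

set_option autoImplicit false

open Module Set Finset

namespace Pool.Agent.H881R4.Shadow

abbrev E (n : ℕ) := EuclideanSpace ℝ (Fin n)

/-- `L` covers the shadows of `K`: for every unit vector `u` a translate (by `v ⊥ u`) of the
projection of `K` along `u` is contained in the projection of `L` along `u`. -/
def Covers {n : ℕ} (K L : Set (E n)) : Prop :=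
  ∀ u : E n, ‖u‖ = 1 → ∃ v : E n, inner ℝ v u = (0 : ℝ) ∧
    ∀ x ∈ K, ∃ y ∈ L, ∃ s : ℝ, x + v = y + s • u

/-- a unit vector orthogonal to `n` vectors with sum zero -/
theorem exists_orth {n : ℕ} (hn : 1 ≤ n) (M : Fin n → E n) (hM : ∑ j, M j = 0) :
    ∃ u : E n, ‖u‖ = 1 ∧ ∀ j, inner ℝ (M j) u = (0 : ℝ) := by
  classical
  have hne : Submodule.span ℝ (Set.range M) ≠ ⊤ := by
    intro htop
    have hli := linearIndependent_of_top_le_span_of_card_eq_finrank (b := M) htop.ge
      (by simp)
    have := Fintype.linearIndependent_iff.1 hli (fun _ => (1 : ℝ)) (by simpa using hM) ⟨0, hn⟩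
    exact one_ne_zero this
  have hbot : (Submodule.span ℝ (Set.range M))ᗮ ≠ ⊥ := by
    intro h
    exact hne ((Submodule.orthogonal_eq_bot_iff).1 h)
  obtain ⟨w, hw, hw0⟩ := Submodule.exists_mem_ne_zero_of_ne_bot hbot
  have hwn : ‖w‖ ≠ 0 := norm_ne_zero_iff.2 hw0
  refine ⟨(‖w‖)⁻¹ • w, ?_, ?_⟩
  · rw [norm_smul, norm_inv, norm_norm, inv_mul_cancel₀ hwn]
  · intro j
    rw [inner_smul_right, (Submodule.mem_orthogonal _ _).1 hw (M j)
      (Submodule.subset_span ⟨j, rfl⟩), mul_zero]

/-- the linear functional inequality -/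
theorem key_ineq {n : ℕ} (hn : 2 ≤ n) {K L : Set (E n)} (h : Covers K L)
    (N κ l : Fin (n + 1) → E n) (hN : ∑ i, N i = 0) (hκ : ∀ i, κ i ∈ K)
    (hl : ∀ i, ∀ y ∈ L, inner ℝ y (N i) ≤ (inner ℝ (l i) (N i) : ℝ)) :
    (∑ i, (inner ℝ (κ i) (N i) : ℝ)) ≤
      ((n : ℝ) / (n - 1)) * ∑ i, (inner ℝ (l i) (N i) : ℝ) := by
  have hn0 : (0 : ℝ) < n := by positivity
  have hn1 : (0 : ℝ) < (n : ℝ) - 1 := by
    have : (2 : ℝ) ≤ n := by exact_mod_cast hn
    linarith
  set B : ℝ := ∑ i, (inner ℝ (l i) (N i) : ℝ) with hB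
  set A : ℝ := ∑ i, (inner ℝ (κ i) (N i) : ℝ) with hA
  -- the vectors
  let M : Fin (n + 1) → Fin (n + 1) → E n := fun i k => N k + ((n : ℝ)⁻¹) • N i
  have hMsum : ∀ i, ∑ j : Fin n, M i (i.succAbove j) = 0 := by
    intro i
    have h1 := Fin.sum_univ_succAbove N i
    rw [hN] at h1
    simp only [M, Finset.sum_add_distrib, Finset.sum_const, Finset.card_univ, Fintype.card_fin]
    rw [← Nat.cast_smul_eq_nsmul ℝ, smul_smul, mul_inv_cancel₀ hn0.ne', one_smul]
    rw [add_comm]
    exact h1.symm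
  have hi : ∀ i, ∑ j : Fin n, (inner ℝ (κ (i.succAbove j)) (M i (i.succAbove j)) : ℝ) ≤ B := by
    intro i
    obtain ⟨u, hu, huM⟩ := exists_orth (by omega) (fun j => M i (i.succAbove j)) (hMsum i)
    obtain ⟨v, hv, hcov⟩ := h u hu
    have h1 : ∀ j : Fin n, (inner ℝ (κ (i.succAbove j)) (M i (i.succAbove j)) : ℝ) ≤
        inner ℝ (l (i.succAbove j)) (N (i.succAbove j)) +
          (n : ℝ)⁻¹ * inner ℝ (l i) (N i) - inner ℝ v (M i (i.succAbove j)) := by
      intro j
      obtain ⟨y, hy, s, hs⟩ := hcov (κ (i.succAbove j)) (hκ _)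
      have h2 : (inner ℝ (κ (i.succAbove j)) (M i (i.succAbove j)) : ℝ) +
          inner ℝ v (M i (i.succAbove j)) = inner ℝ y (M i (i.succAbove j)) := by
        rw [← inner_add_left, hs, inner_add_left, real_inner_smul_left]
        rw [real_inner_comm]
        rw [real_inner_comm (M i (i.succAbove j)) u, huM j, mul_zero, add_zero]
      have h3 : (inner ℝ y (M i (i.succAbove j)) : ℝ) = inner ℝ y (N (i.succAbove j)) +
          (n : ℝ)⁻¹ * inner ℝ y (N i) := by
        simp only [M]
        rw [inner_add_right, inner_smul_right]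
      have h4 := hl (i.succAbove j) y hy
      have h5 := mul_le_mul_of_nonneg_left (hl i y hy) (inv_nonneg.2 hn0.le)
      linarith
    calc ∑ j : Fin n, (inner ℝ (κ (i.succAbove j)) (M i (i.succAbove j)) : ℝ)
        ≤ ∑ j : Fin n, (inner ℝ (l (i.succAbove j)) (N (i.succAbove j)) +
          (n : ℝ)⁻¹ * inner ℝ (l i) (N i) - inner ℝ v (M i (i.succAbove j))) :=
          Finset.sum_le_sum fun j _ => h1 j
      _ = B := by
          rw [Finset.sum_sub_distrib, Finset.sum_add_distrib, ← inner_sum, hMsum i,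
            inner_zero_right, sub_zero, Finset.sum_const, Finset.card_univ, Fintype.card_fin,
            nsmul_eq_mul, ← mul_assoc, mul_inv_cancel₀ hn0.ne', one_mul, hB,
            Fin.sum_univ_succAbove (fun i => (inner ℝ (l i) (N i) : ℝ)) i, add_comm]
  have hsum : ∑ i, ∑ j : Fin n, (inner ℝ (κ (i.succAbove j)) (M i (i.succAbove j)) : ℝ) =
      ((n : ℝ) - (n : ℝ)⁻¹) * A := by
    have h1 : ∀ i, ∑ j : Fin n, (inner ℝ (κ (i.succAbove j)) (M i (i.succAbove j)) : ℝ) =
        (∑ k, (inner ℝ (κ k) (M i k) : ℝ)) - inner ℝ (κ i) (M i i) := by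
      intro i
      rw [Fin.sum_univ_succAbove (fun k => (inner ℝ (κ k) (M i k) : ℝ)) i]
      ring
    simp only [h1]
    rw [Finset.sum_sub_distrib, Finset.sum_comm]
    have h2 : ∀ k, ∑ i, (inner ℝ (κ k) (M i k) : ℝ) = (n + 1) * inner ℝ (κ k) (N k) := by
      intro k
      rw [← inner_sum]
      simp only [M, Finset.sum_add_distrib, Finset.sum_const, Finset.card_univ, Fintype.card_fin,
        ← Finset.smul_sum, hN, smul_zero, add_zero]
      rw [← Nat.cast_smul_eq_nsmul ℝ, inner_smul_right]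
      push_cast
      ring
    have h3 : ∀ i, (inner ℝ (κ i) (M i i) : ℝ) = (1 + (n : ℝ)⁻¹) * inner ℝ (κ i) (N i) := by
      intro i
      simp only [M]
      rw [inner_add_right, inner_smul_right]
      ring
    simp only [h2, h3]
    rw [← Finset.mul_sum, ← Finset.mul_sum]
    ring
  have hfin : ((n : ℝ) - (n : ℝ)⁻¹) * A ≤ (n + 1) * B := by
    rw [← hsum]
    calc ∑ i, ∑ j : Fin n, (inner ℝ (κ (i.succAbove j)) (M i (i.succAbove j)) : ℝ)
        ≤ ∑ _i : Fin (n + 1), B := Finset.sum_le_sum fun i _ => hi i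
      _ = _ := by simp
  have h1 : ((n : ℝ) - (n : ℝ)⁻¹) = (n + 1) * ((n - 1) / n) := by
    field_simp
    ring
  rw [h1, mul_assoc] at hfin
  have h2 : ((n : ℝ) - 1) / n * A ≤ B := le_of_mul_le_mul_left hfin (by linarith)
  calc A = (n / (n - 1)) * (((n : ℝ) - 1) / n * A) := by
        field_simp
    _ ≤ (n / (n - 1)) * B := mul_le_mul_of_nonneg_left h2 (by positivity)

/-- containment for `n + 1` points -/
theorem points {n : ℕ} (hn : 2 ≤ n) {K L : Set (E n)} (hLc : IsCompact L) (hL : Convex ℝ L)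
    (hLn : L.Nonempty) (h : Covers K L) (κ : Fin (n + 1) → E n) (hκ : ∀ i, κ i ∈ K) :
    ∃ x : E n, ∀ i, ∃ l ∈ L, x + κ i = ((n : ℝ) / (n - 1)) • l := by
  set lam : ℝ := (n : ℝ) / (n - 1) with hlam
  let S : Set (Fin (n + 1) → E n) := Set.univ.pi fun _ => (fun y => lam • y) '' L
  let T : Set (Fin (n + 1) → E n) := {f | ∀ i, f i - κ i = f 0 - κ 0}
  have hLS : IsCompact ((fun y => lam • y) '' L) := hLc.image (by fun_prop)
  have hLSc : Convex ℝ ((fun y => lam • y) '' L) := by
    have := hL.smul lam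
    simpa [Set.image_smul] using this
  have hS : IsCompact S := isCompact_univ_pi fun _ => hLS
  have hSc : Convex ℝ S := convex_pi fun _ _ => hLSc
  have hT : IsClosed T := by
    have : T = ⋂ i, {f : Fin (n + 1) → E n | f i - κ i = f 0 - κ 0} := by
      ext f; simp [T]
    rw [this]
    exact isClosed_iInter fun i => isClosed_eq (by fun_prop) (by fun_prop)
  have hTc : Convex ℝ T := by
    intro f hf g hg a b ha hb hab i
    have h1 := hf i
    have h2 := hg i
    have e : ∀ k, (a • f + b • g) k - κ k = a • (f k - κ k) + b • (g k - κ k) := by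
      intro k
      have : κ k = (a + b) • κ k := by rw [hab, one_smul]
      simp only [Pi.add_apply, Pi.smul_apply]
      conv_lhs => rw [this]
      module
    rw [e i, e 0, h1, h2]
  by_contra hcon
  have hdisj : Disjoint S T := by
    rw [Set.disjoint_left]
    intro f hfS hfT
    apply hcon
    refine ⟨f 0 - κ 0, fun i => ?_⟩
    obtain ⟨l, hl, hle⟩ := hfS i (Set.mem_univ _)
    refine ⟨l, hl, ?_⟩
    rw [← hfT i]
    simp only at hle
    rw [hle]
    abel
  obtain ⟨f, a, b, hfa, hab, hfb⟩ := geometric_hahn_banach_compact_closed hSc hS hTc hT hdisj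
  -- the components
  let g : Fin (n + 1) → (E n →L[ℝ] ℝ) := fun i =>
    f.comp (ContinuousLinearMap.single ℝ (fun _ : Fin (n + 1) => E n) i)
  have hf : ∀ p : Fin (n + 1) → E n, f p = ∑ i, g i (p i) := by
    intro p
    have : p = ∑ i, Pi.single i (p i) := by
      rw [Finset.univ_sum_single]
    conv_lhs => rw [this]
    rw [map_sum]
    rfl
  let N : Fin (n + 1) → E n := fun i => (InnerProductSpace.toDual ℝ (E n)).symm (g i)
  have hgN : ∀ i y, g i y = inner ℝ y (N i) := by
    intro i y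
    rw [real_inner_comm]
    exact (InnerProductSpace.toDual_symm_apply).symm
  -- sum zero
  have hN : ∑ i, N i = 0 := by
    have hx : ∀ x : E n, b < inner ℝ x (∑ i, N i) + ∑ i, (inner ℝ (κ i) (N i) : ℝ) := by
      intro x
      have h1 : (fun i => x + κ i) ∈ T := by
        intro i
        simp
      have h2 := hfb _ h1
      rw [hf] at h2
      simp only [hgN, inner_add_left, Finset.sum_add_distrib] at h2
      rwa [inner_sum]
    by_contra hne
    have hpos : (0 : ℝ) < ‖∑ i, N i‖ ^ 2 := by positivity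
    have h3 := hx ((-((∑ i, (inner ℝ (κ i) (N i) : ℝ)) - b + 0) / ‖∑ i, N i‖ ^ 2) •
      (∑ i, N i))
    rw [real_inner_smul_left, real_inner_self_eq_norm_sq, div_mul_cancel₀ _ hpos.ne'] at h3
    linarith
  -- maximal points of L
  have hmax : ∀ i, ∃ l ∈ L, ∀ y ∈ L, (inner ℝ y (N i) : ℝ) ≤ inner ℝ l (N i) := by
    intro i
    obtain ⟨l, hl, hmx⟩ := hLc.exists_isMaxOn hLn
      (f := fun y => (inner ℝ y (N i) : ℝ)) (by fun_prop)
    exact ⟨l, hl, fun y hy => hmx hy⟩
  choose l hl hlm using hmax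
  have hk := key_ineq hn h N κ l hN hκ hlm
  have h1 := hfa (fun i => lam • l i) (fun i _ => ⟨l i, hl i, rfl⟩)
  have h2 := hfb κ (fun i => by simp)
  rw [hf] at h1 h2
  simp only [hgN, real_inner_smul_left] at h1 h2
  rw [← Finset.mul_sum] at h1
  linarith

/-- **Containment**: if `L` covers the shadows of `K` then a translate of `K` is contained in
`(n/(n-1)) L`. -/
theorem containment {n : ℕ} (hn : 2 ≤ n) {K L : Set (E n)} (hLc : IsCompact L)
    (hL : Convex ℝ L) (hLn : L.Nonempty) (h : Covers K L) :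
    ∃ x : E n, ∀ k ∈ K, ∃ l ∈ L, x + k = ((n : ℝ) / (n - 1)) • l := by
  classical
  set lam : ℝ := (n : ℝ) / (n - 1) with hlam
  let F : K → Set (E n) := fun k => (fun y => lam • y - (k : E n)) '' L
  have hF : ∀ (k : K) x, x ∈ F k ↔ ∃ l ∈ L, x + k = lam • l := by
    intro k x
    constructor
    · rintro ⟨l, hl, rfl⟩
      exact ⟨l, hl, by simp⟩
    · rintro ⟨l, hl, he⟩
      refine ⟨l, hl, ?_⟩
      simp only
      rw [← he]
      abel
  have key : (⋂ k, F k).Nonempty := by
    apply Convex.helly_theorem_compact' (𝕜 := ℝ)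
    · intro k x hx y hy a b ha hb hab
      obtain ⟨l, hl, hle⟩ := (hF k x).1 hx
      obtain ⟨l', hl', hle'⟩ := (hF k y).1 hy
      rw [hF]
      refine ⟨a • l + b • l', hL hl hl' ha hb hab, ?_⟩
      have : (k : E n) = (a + b) • (k : E n) := by rw [hab, one_smul]
      calc a • x + b • y + (k : E n) = a • x + b • y + (a + b) • (k : E n) := by rw [← this]
        _ = a • (x + k) + b • (y + k) := by module
        _ = lam • (a • l + b • l') := by rw [hle, hle']; module
    · intro k
      exact hLc.image (by fun_prop)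
    · intro I hI
      rw [finrank_euclideanSpace, Fintype.card_fin] at hI
      rcases I.eq_empty_or_nonempty with rfl | ⟨k0, hk0⟩
      · simp
      · have : Nonempty (I : Type) := ⟨⟨k0, hk0⟩⟩
        obtain ⟨e⟩ : Nonempty (I ↪ Fin (n + 1)) := by
          apply Function.Embedding.nonempty_of_card_le
          simpa using hI
        let r : Fin (n + 1) → I := Function.invFun e
        have hr : ∀ k : I, r (e k) = k := Function.leftInverse_invFun e.injective
        obtain ⟨x, hx⟩ := points hn hLc hL hLn h (fun i => ((r i : K) : E n))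
          (fun i => (r i : K).2)
        refine ⟨x, ?_⟩
        simp only [Set.mem_iInter]
        intro k hk
        rw [hF]
        have := hx (e ⟨k, hk⟩)
        rw [hr] at this
        exact this
  obtain ⟨x, hx⟩ := key
  refine ⟨x, fun k hk => ?_⟩
  have := Set.mem_iInter.1 hx ⟨k, hk⟩
  exact (hF _ _).1 this

end Pool.Agent.H881R4.Shadow
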