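import Mathlib
import Pool.Agent.H748R2.KB.TBM

/-!
# The chord-length sets of a convex body and the volume of a subset with a small shadow
-/

set_option autoImplicit false

open MeasureTheory Set
open scoped ENNReal Pointwise

namespace Pool.Agent.H881R4.Shadow

variable {m : ℕ}

/-- the points over which `C` has a chord of length at least `s` -/
def D (C : Set (ℝ × (Fin m → ℝ))) (s : ℝ) : Set (Fin m → ℝ) :=
  {y | ∃ z : ℝ, (z, y) ∈ C ∧ (z + s, y) ∈ C}

theorem D_compact {C : Set (ℝ × (Fin m → ℝ))} (hC : IsCompact C) (s : ℝ) :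
    IsCompact (D C s) := by
  have h : D C s = Prod.snd '' (C ∩ (fun p : ℝ × (Fin m → ℝ) => (p.1 + s, p.2)) ⁻¹' C) := by
    ext y
    constructor
    · rintro ⟨z, h1, h2⟩
      exact ⟨(z, y), ⟨h1, h2⟩, rfl⟩
    · rintro ⟨⟨z, y'⟩, ⟨h1, h2⟩, rfl⟩
      exact ⟨z, h1, h2⟩
  rw [h]
  refine (hC.inter_right (hC.isClosed.preimage ?_)).image continuous_snd
  fun_prop

theorem D_conv {C : Set (ℝ × (Fin m → ℝ))} (hC : Convex ℝ C) {s s' r : ℝ} (h0 : 0 ≤ r)
    (h1 : r ≤ 1) {y y' : Fin m → ℝ} (hy : y ∈ D C s) (hy' : y' ∈ D C s') :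
    (1 - r) • y + r • y' ∈ D C ((1 - r) * s + r * s') := by
  obtain ⟨z, h2, h3⟩ := hy
  obtain ⟨z', h4, h5⟩ := hy'
  refine ⟨(1 - r) * z + r * z', ?_, ?_⟩
  · exact hC h2 h4 (by linarith) h0 (by ring)
  · have := hC h3 h5 (sub_nonneg.2 h1) h0 (by ring)
    convert this using 1
    ext
    · simp
      ring
    · simp

theorem D_anti {C : Set (ℝ × (Fin m → ℝ))} (hC : Convex ℝ C) {s s' : ℝ} (h0 : 0 ≤ s)
    (h : s ≤ s') : D C s' ⊆ D C s := by
  rintro y ⟨z, h1, h2⟩
  rcases (h0.trans h).eq_or_lt with h3 | h3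
  · have : s = 0 := by linarith
    subst this
    exact ⟨z, h1, by simpa using h1⟩
  · refine ⟨z, h1, ?_⟩
    have h4 : 0 ≤ s / s' := div_nonneg h0 h3.le
    have h5 : s / s' ≤ 1 := (div_le_one h3).2 h
    have := hC h1 h2 (sub_nonneg.2 h5) h4 (by ring)
    convert this using 1
    ext
    · simp
      field_simp
      ring
    · simp
      ring

/-- the volume of the chord-length sets -/
noncomputable def phi (C : Set (ℝ × (Fin m → ℝ))) (s : ℝ) : ℝ := (volume (D C s)).toReal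

theorem phi_nonneg (C : Set (ℝ × (Fin m → ℝ))) (s : ℝ) : 0 ≤ phi C s := ENNReal.toReal_nonneg

theorem ofReal_phi {C : Set (ℝ × (Fin m → ℝ))} (hC : IsCompact C) (s : ℝ) :
    ENNReal.ofReal (phi C s) = volume (D C s) :=
  ENNReal.ofReal_toReal (D_compact hC s).measure_ne_top

theorem phi_anti {C : Set (ℝ × (Fin m → ℝ))} (hCc : IsCompact C) (hC : Convex ℝ C) {s s' : ℝ}
    (h0 : 0 ≤ s) (h : s ≤ s') : phi C s' ≤ phi C s :=
  ENNReal.toReal_mono (D_compact hCc s).measure_ne_top (measure_mono (D_anti hC h0 h))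

theorem phi_conc {C : Set (ℝ × (Fin m → ℝ))} (hCc : IsCompact C) (hC : Convex ℝ C)
    {s s' r a b : ℝ} (h0 : 0 ≤ r) (h1 : r ≤ 1) (ha : 0 ≤ a) (hb : 0 ≤ b)
    (hs : (D C s).Nonempty) (hs' : (D C s').Nonempty) (h2 : a ^ m ≤ phi C s)
    (h3 : b ^ m ≤ phi C s') :
    ((1 - r) * a + r * b) ^ m ≤ phi C ((1 - r) * s + r * s') := by
  have hr : 0 ≤ 1 - r := by linarith
  have hv : ∀ (q : ℝ) (A : Set (Fin m → ℝ)), 0 ≤ q →
      (volume (q • A)).toReal = q ^ m * (volume A).toReal := by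
    intro q A hq
    rw [Measure.addHaar_smul, Module.finrank_fin_fun, ENNReal.toReal_mul,
      ENNReal.toReal_ofReal (abs_nonneg _), abs_of_nonneg (pow_nonneg hq _)]
  have key := Pool.Agent.H748R2.KB.t_BM m ((1 - r) • D C s) (r • D C s')
    ((D_compact hCc s).smul _) ((D_compact hCc s').smul _) hs.smul_set hs'.smul_set
    ((1 - r) * a) (r * b) (mul_nonneg hr ha) (mul_nonneg h0 hb)
    (by
      change _ ≤ (volume _).toReal
      rw [hv _ _ hr, mul_pow]
      exact mul_le_mul_of_nonneg_left h2 (pow_nonneg hr _))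
    (by
      change _ ≤ (volume _).toReal
      rw [hv _ _ h0, mul_pow]
      exact mul_le_mul_of_nonneg_left h3 (pow_nonneg h0 _))
  refine key.trans (ENNReal.toReal_mono (D_compact hCc _).measure_ne_top (measure_mono ?_))
  rintro _ ⟨_, ⟨y, hy, rfl⟩, _, ⟨y', hy', rfl⟩, rfl⟩
  exact D_conv hC h0 h1 hy hy'

/-- the shaken body -/
def W (C : Set (ℝ × (Fin m → ℝ))) : Set (ℝ × (Fin m → ℝ)) := {p | 0 ≤ p.1 ∧ p.2 ∈ D C p.1}

theorem W_compact {C : Set (ℝ × (Fin m → ℝ))} (hC : IsCompact C) : IsCompact (W C) := by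
  have h : W C = (fun p : (ℝ × (Fin m → ℝ)) × (ℝ × (Fin m → ℝ)) => (p.2.1 - p.1.1, p.1.2)) ''
      ((C ×ˢ C) ∩ {p | p.1.2 = p.2.2 ∧ p.1.1 ≤ p.2.1}) := by
    ext ⟨s, y⟩
    constructor
    · rintro ⟨h0, z, h1, h2⟩
      exact ⟨((z, y), (z + s, y)), ⟨⟨h1, h2⟩, rfl, by simpa using h0⟩, by simp⟩
    · rintro ⟨⟨⟨z, y1⟩, ⟨z', y2⟩⟩, ⟨⟨h1, h2⟩, h3, h4⟩, h5⟩
      simp only [Prod.mk.injEq] at h1 h2 h3 h4 h5
      obtain ⟨h5, h6⟩ := h5
      subst h3 h5 h6
      refine ⟨sub_nonneg.2 h4, z, h1, ?_⟩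
      simpa using h2
  rw [h]
  refine IsCompact.image ?_ (by fun_prop)
  refine (hC.prod hC).inter_right ?_
  have c1 : IsClosed {p : (ℝ × (Fin m → ℝ)) × (ℝ × (Fin m → ℝ)) | p.1.2 = p.2.2} :=
    isClosed_eq (by fun_prop) (by fun_prop)
  have c2 : IsClosed {p : (ℝ × (Fin m → ℝ)) × (ℝ × (Fin m → ℝ)) | p.1.1 ≤ p.2.1} :=
    isClosed_le (by fun_prop) (by fun_prop)
  exact c1.inter c2

/-- over each measurable set of base points `C` and the shaken body have the same volume -/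
theorem W_vol {C : Set (ℝ × (Fin m → ℝ))} (hCc : IsCompact C) (hC : Convex ℝ C)
    {B : Set (Fin m → ℝ)} (hB : MeasurableSet B) :
    volume (C ∩ (univ ×ˢ B)) = volume (W C ∩ (univ ×ˢ B)) := by
  have hm : MeasurableSet ((univ : Set ℝ) ×ˢ B) := MeasurableSet.univ.prod hB
  rw [Measure.volume_eq_prod, Measure.prod_apply_symm (hCc.measurableSet.inter hm),
    Measure.prod_apply_symm ((W_compact hCc).measurableSet.inter hm)]
  congr 1
  ext y
  by_cases hy : y ∈ B
  · have e1 : (fun x : ℝ => (x, y)) ⁻¹' (C ∩ (univ ×ˢ B)) = (fun x : ℝ => (x, y)) ⁻¹' C := by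
      ext x; simp [hy]
    have e2 : (fun x : ℝ => (x, y)) ⁻¹' (W C ∩ (univ ×ˢ B)) =
        (fun x : ℝ => (x, y)) ⁻¹' (W C) := by
      ext x; simp [hy]
    rw [e1, e2]
    rcases ((fun x : ℝ => (x, y)) ⁻¹' C).eq_empty_or_nonempty with h | h
    · rw [h]
      have : (fun x : ℝ => (x, y)) ⁻¹' (W C) = ∅ := by
        rw [Set.eq_empty_iff_forall_notMem]
        rintro s ⟨_, z, hz, _⟩
        have : z ∈ (fun x : ℝ => (x, y)) ⁻¹' C := hz
        rw [h] at this
        exact this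
      rw [this]
    · have hconv : Convex ℝ ((fun x : ℝ => (x, y)) ⁻¹' C) := by
        intro x hx x' hx' a b ha hb hab
        have h7 := hC hx hx' ha hb hab
        have h8 : a • ((x, y) : ℝ × (Fin m → ℝ)) + b • ((x', y) : ℝ × (Fin m → ℝ)) =
            (a • x + b • x', y) := by
          rw [Prod.smul_mk, Prod.smul_mk, Prod.mk_add_mk, ← add_smul, hab, one_smul]
        change (a • x + b • x', y) ∈ C
        rw [← h8]
        exact h7
      have hcomp : IsCompact ((fun x : ℝ => (x, y)) ⁻¹' C) := by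
        have : (fun x : ℝ => (x, y)) ⁻¹' C = Prod.fst '' (C ∩ {p | p.2 = y}) := by
          ext x
          constructor
          · intro hx
            exact ⟨(x, y), ⟨hx, rfl⟩, rfl⟩
          · rintro ⟨⟨x', y'⟩, ⟨h1, h2⟩, rfl⟩
            simp only [mem_ofPred_eq] at h2
            subst h2
            exact h1
        rw [this]
        exact (hCc.inter_right (isClosed_eq (by fun_prop) (by fun_prop))).image continuous_fst
      have hI := eq_Icc_of_connected_compact ⟨h, hconv.isPreconnected⟩ hcomp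
      set a := sInf ((fun x : ℝ => (x, y)) ⁻¹' C)
      set b := sSup ((fun x : ℝ => (x, y)) ⁻¹' C)
      have hab : a ≤ b := by
        rw [hI] at h
        exact nonempty_Icc.1 h
      have hz : ∀ z : ℝ, (z, y) ∈ C ↔ z ∈ Icc a b := by
        intro z
        rw [← hI]
        rfl
      have hW : (fun x : ℝ => (x, y)) ⁻¹' (W C) = Icc 0 (b - a) := by
        ext s
        constructor
        · rintro ⟨h0, z, h1, h2⟩
          rw [hz] at h1 h2
          exact ⟨h0, by linarith [h1.1, h2.2]⟩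
        · rintro ⟨h0, h1⟩
          refine ⟨h0, a, ?_, ?_⟩
          · rw [hz]
            exact ⟨le_refl _, hab⟩
          · change (a + s, y) ∈ C
            rw [hz]
            exact ⟨by linarith, by linarith⟩
      rw [hW, hI, Real.volume_Icc, Real.volume_Icc, sub_zero]
  · have e1 : (fun x : ℝ => (x, y)) ⁻¹' (C ∩ (univ ×ˢ B)) = ∅ := by
      ext x; simp [hy]
    have e2 : (fun x : ℝ => (x, y)) ⁻¹' (W C ∩ (univ ×ˢ B)) = ∅ := by
      ext x; simp [hy]
    rw [e1, e2]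

/-- the maximal length of a chord -/
theorem exists_max {C : Set (ℝ × (Fin m → ℝ))} (hCc : IsCompact C) (hCn : C.Nonempty) :
    ∃ M : ℝ, 0 ≤ M ∧ (D C M).Nonempty ∧ ∀ s, M < s → D C s = ∅ := by
  have h1 : IsCompact (Prod.fst '' (W C)) := (W_compact hCc).image continuous_fst
  have h2 : (Prod.fst '' (W C)).Nonempty := by
    obtain ⟨⟨z, y⟩, hp⟩ := hCn
    exact ⟨0, (0, y), ⟨le_refl _, z, hp, by simpa using hp⟩, rfl⟩
  obtain ⟨M, ⟨⟨M', y⟩, ⟨h3, h4⟩, h5⟩, hM⟩ := h1.exists_isGreatest h2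
  simp only at h3 h4 h5
  subst h5
  refine ⟨M', h3, ⟨y, h4⟩, fun s hs => ?_⟩
  rw [Set.eq_empty_iff_forall_notMem]
  intro y' hy'
  have : s ≤ M' := hM ⟨(s, y'), ⟨by simp only; linarith, hy'⟩, rfl⟩
  linarith

/-- the volume of the shaken body over a set of base points -/
theorem W_slice {C : Set (ℝ × (Fin m → ℝ))} (hCc : IsCompact C)
    {B : Set (Fin m → ℝ)} (hB : MeasurableSet B) {M : ℝ} (hM : ∀ s, M < s → D C s = ∅) :
    volume (W C ∩ (univ ×ˢ B)) = ∫⁻ s in Icc 0 M, volume (D C s ∩ B) := by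
  have hm : MeasurableSet ((univ : Set ℝ) ×ˢ B) := MeasurableSet.univ.prod hB
  rw [Measure.volume_eq_prod, Measure.prod_apply ((W_compact hCc).measurableSet.inter hm),
    ← lintegral_indicator measurableSet_Icc]
  congr 1
  ext s
  by_cases hs : s ∈ Icc 0 M
  · rw [indicator_of_mem hs]
    congr 1
    ext y
    simp only [W, mem_preimage, mem_inter_iff, mem_ofPred_eq, mem_prod, mem_univ, true_and]
    exact ⟨fun h => ⟨h.1.2, h.2⟩, fun h => ⟨⟨hs.1, h.1⟩, h.2⟩⟩
  · rw [indicator_of_notMem hs]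
    have : Prod.mk s ⁻¹' (W C ∩ (univ ×ˢ B)) = ∅ := by
      rw [Set.eq_empty_iff_forall_notMem]
      rintro y ⟨⟨h1, h2⟩, _⟩
      simp only at h1 h2
      apply hs
      refine ⟨h1, ?_⟩
      by_contra h3
      rw [hM s (not_le.1 h3)] at h2
      exact h2
    rw [this, measure_empty]

end Pool.Agent.H881R4.Shadow
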