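import Pool.Agent.H881R4.Shadow1
import Pool.Agent.H881R4.Shadow2

/-!
# Volume bounds for covering shadows
-/

set_option autoImplicit false

open MeasureTheory Set
open scoped ENNReal Pointwise

namespace Pool.Agent.H881R4.Shadow

/-- the one-dimensional inequality -/
def OneD : Prop := ∀ (m : ℕ), 1 ≤ m → ∀ (R M t : ℝ), 0 ≤ R → 0 < M → 0 < t → t < 1 →
  ∀ φ : ℝ → ℝ, AntitoneOn φ (Set.Icc 0 M) → (∀ s, 0 ≤ φ s) → φ 0 = R ^ m →
  (∀ a b s s' r : ℝ, 0 ≤ a → 0 ≤ b → s ∈ Set.Icc 0 M → s' ∈ Set.Icc 0 M → a ^ m ≤ φ s →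
    b ^ m ≤ φ s' → 0 ≤ r → r ≤ 1 → ((1 - r) * a + r * b) ^ m ≤ φ ((1 - r) * s + r * s')) →
  ∫ s in (0:ℝ)..M, min (t ^ m * R ^ m) (φ s) ≤
    t ^ m * (m + 1 - m * t) * ∫ s in (0:ℝ)..M, φ s

theorem lint_Icc {g : ℝ → ℝ} {M : ℝ} (hM : 0 ≤ M) (hg : AntitoneOn g (Icc 0 M))
    (hnn : ∀ s, 0 ≤ g s) :
    ∫⁻ s in Icc 0 M, ENNReal.ofReal (g s) = ENNReal.ofReal (∫ s in (0:ℝ)..M, g s) := by
  rw [intervalIntegral.integral_of_le hM, ← integral_Icc_eq_integral_Ioc,
    ofReal_integral_eq_lintegral_ofReal (hg.integrableOn_isCompact isCompact_Icc)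
      (Filter.Eventually.of_forall hnn)]

/-- **Volume bound**: a compact subset `K` of the convex body `C` in `ℝ × ℝ^m` whose shadow is
contained in a translate of the shadow of `C` shrunk by the factor `t`. -/
theorem vol_bound (h1D : OneD) {m : ℕ} (hm : 1 ≤ m) {K C : Set (ℝ × (Fin m → ℝ))}
    (hKc : IsCompact K) (hCc : IsCompact C) (hC : Convex ℝ C) (hKC : K ⊆ C) {t : ℝ}
    (h0 : 0 < t) (h1 : t < 1) (v : Fin m → ℝ) (hv : ∀ p ∈ K, ∃ q ∈ C, p.2 + v = t • q.2) :
    volume K ≤ ENNReal.ofReal (t ^ m * (m + 1 - m * t)) * volume C := by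
  rcases C.eq_empty_or_nonempty with rfl | hCn
  · rw [subset_empty_iff.1 hKC]
    simp
  obtain ⟨M, hM0, hMn, hM⟩ := exists_max hCc hCn
  -- the shadow of `K`
  set B : Set (Fin m → ℝ) := Prod.snd '' K with hB
  have hBc : IsCompact B := hKc.image continuous_snd
  have hBv : volume B ≤ ENNReal.ofReal (t ^ m * phi C 0) := by
    have hsub : B ⊆ (-v) +ᵥ (t • D C 0) := by
      rintro _ ⟨p, hp, rfl⟩
      obtain ⟨q, hq, he⟩ := hv p hp
      refine ⟨t • q.2, ⟨q.2, ⟨q.1, hq, by simpa using hq⟩, rfl⟩, ?_⟩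
      change -v + t • q.2 = p.2
      rw [← he]
      abel
    calc volume B ≤ volume ((-v) +ᵥ (t • D C 0)) := measure_mono hsub
      _ = volume (t • D C 0) := measure_vadd _ _ _
      _ = ENNReal.ofReal (t ^ m * phi C 0) := by
          rw [Measure.addHaar_smul, Module.finrank_fin_fun, abs_of_pos (pow_pos h0 m),
            ENNReal.ofReal_mul (pow_pos h0 m).le, ofReal_phi hCc]
  have hanti : AntitoneOn (phi C) (Icc 0 M) := fun s hs s' _ hss => phi_anti hCc hC hs.1 hss
  have hKv : volume K ≤ ∫⁻ s in Icc 0 M, ENNReal.ofReal (min (t ^ m * phi C 0) (phi C s)) := by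
    calc volume K ≤ volume (C ∩ (univ ×ˢ B)) :=
          measure_mono fun p hp => ⟨hKC hp, mem_univ _, p, hp, rfl⟩
      _ = ∫⁻ s in Icc 0 M, volume (D C s ∩ B) := by
          rw [W_vol hCc hC hBc.measurableSet, W_slice hCc hBc.measurableSet hM]
      _ ≤ _ := by
          refine lintegral_mono fun s => ?_
          rw [ENNReal.ofReal_min, ofReal_phi hCc]
          exact le_min ((measure_mono inter_subset_right).trans hBv)
            (measure_mono inter_subset_left)
  have hCv : volume C = ∫⁻ s in Icc 0 M, ENNReal.ofReal (phi C s) := by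
    have := W_vol hCc hC MeasurableSet.univ
    rw [W_slice hCc MeasurableSet.univ hM] at this
    simp only [univ_prod_univ, inter_univ] at this
    rw [this]
    simp only [ofReal_phi hCc]
  rcases hM0.eq_or_lt with hM1 | hM1
  · subst hM1
    refine hKv.trans ?_
    simp
  have hmin : AntitoneOn (fun s => min (t ^ m * phi C 0) (phi C s)) (Icc 0 M) :=
    fun s hs s' hs' hss => min_le_min le_rfl (hanti hs hs' hss)
  have hc0 : 0 ≤ t ^ m * ((m : ℝ) + 1 - m * t) := by
    have : (m : ℝ) * t ≤ m * 1 := mul_le_mul_of_nonneg_left h1.le (Nat.cast_nonneg m)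
    have h3 : (0 : ℝ) ≤ (m : ℝ) + 1 - m * t := by linarith
    positivity
  refine hKv.trans ?_
  rw [hCv, lint_Icc hM0 hmin (fun s => le_min (mul_nonneg (pow_nonneg h0.le _) (phi_nonneg _ _))
    (phi_nonneg _ _)), lint_Icc hM0 hanti (phi_nonneg C), ← ENNReal.ofReal_mul hc0]
  refine ENNReal.ofReal_le_ofReal ?_
  have hm0 : m ≠ 0 := by omega
  have hR : ((phi C 0) ^ ((m : ℝ)⁻¹)) ^ m = phi C 0 :=
    Real.rpow_inv_natCast_pow (phi_nonneg C 0) hm0
  have key := h1D m hm ((phi C 0) ^ ((m : ℝ)⁻¹)) M t (Real.rpow_nonneg (phi_nonneg C 0) _)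
    hM1 h0 h1 (phi C) hanti (phi_nonneg C) hR.symm ?_
  · rw [hR] at key
    exact key
  · intro a b s s' r ha hb hs hs' h2 h3 hr0 hr1
    have hne : ∀ s ∈ Icc 0 M, (D C s).Nonempty := fun s hs =>
      hMn.mono (D_anti hC hs.1 hs.2)
    exact phi_conc hCc hC hr0 hr1 ha hb (hne s hs) (hne s' hs') h2 h3

/-! ### Transfer to Euclidean space -/

/-- coordinates -/
noncomputable def Psi (m : ℕ) (p : ℝ × (Fin m → ℝ)) : E (m + 1) :=
  MeasurableEquiv.toLp 2 (Fin (m + 1) → ℝ)
    ((MeasurableEquiv.piFinSuccAbove (fun _ => ℝ) 0).symm p)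

theorem Psi_mp (m : ℕ) : MeasurePreserving (Psi m) volume volume :=
  (EuclideanSpace.volume_preserving_symm_measurableEquiv_toLp (Fin (m + 1))).symm.comp
    (volume_preserving_piFinSuccAbove (fun _ => ℝ) 0).symm

theorem Psi_zero (m : ℕ) (p : ℝ × (Fin m → ℝ)) : Psi m p 0 = p.1 := by
  simp [Psi, MeasurableEquiv.piFinSuccAbove]

theorem Psi_succ (m : ℕ) (p : ℝ × (Fin m → ℝ)) (j : Fin m) : Psi m p j.succ = p.2 j := by
  simp [Psi, MeasurableEquiv.piFinSuccAbove]

/-- the inverse -/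
def Phi (m : ℕ) (x : E (m + 1)) : ℝ × (Fin m → ℝ) := (x 0, fun j => x j.succ)

theorem Psi_Phi (m : ℕ) (x : E (m + 1)) : Psi m (Phi m x) = x := by
  ext i
  refine Fin.cases ?_ (fun j => ?_) i
  · rw [Psi_zero]; rfl
  · rw [Psi_succ]; rfl

theorem Phi_Psi (m : ℕ) (p : ℝ × (Fin m → ℝ)) : Phi m (Psi m p) = p := by
  ext
  · exact Psi_zero m p
  · exact Psi_succ m p _

theorem Phi_cont (m : ℕ) : Continuous (Phi m) := by
  unfold Phi
  fun_prop

theorem pre_eq (m : ℕ) (S : Set (E (m + 1))) : Psi m ⁻¹' S = Phi m '' S := by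
  ext p
  constructor
  · intro hp
    exact ⟨Psi m p, hp, Phi_Psi m p⟩
  · rintro ⟨x, hx, rfl⟩
    rw [mem_preimage, Psi_Phi]
    exact hx

theorem pre_compact (m : ℕ) {S : Set (E (m + 1))} (hS : IsCompact S) :
    IsCompact (Psi m ⁻¹' S) := by
  rw [pre_eq]
  exact hS.image (Phi_cont m)

theorem pre_convex (m : ℕ) {S : Set (E (m + 1))} (hS : Convex ℝ S) :
    Convex ℝ (Psi m ⁻¹' S) := by
  intro p hp q hq a b ha hb hab
  have h := hS hp hq ha hb hab
  have e : Psi m (a • p + b • q) = a • Psi m p + b • Psi m q := by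
    ext i
    refine Fin.cases ?_ (fun j => ?_) i
    · simp [Psi_zero]
    · simp [Psi_succ]
  rw [mem_preimage, e]
  exact h

/-- **Main theorem** -/
theorem main (h1D : OneD) {n : ℕ} (hn : 2 ≤ n) {K L : Set (E n)} (hKc : IsCompact K)
    (hLc : IsCompact L) (hL : Convex ℝ L) (h : Covers K L) :
    volume K ≤ ENNReal.ofReal ((2 * n - 1) / (n - 1)) * volume L := by
  rcases L.eq_empty_or_nonempty with rfl | hLn
  · have hK : K = ∅ := by
      rw [Set.eq_empty_iff_forall_notMem]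
      intro k hk
      obtain ⟨u, hu⟩ : ∃ u : E n, ‖u‖ = 1 :=
        ⟨EuclideanSpace.single ⟨0, by omega⟩ (1 : ℝ), by simp⟩
      obtain ⟨v, _, hv⟩ := h u hu
      obtain ⟨y, hy, _⟩ := hv k hk
      exact hy
    rw [hK]
    simp
  obtain ⟨m, rfl⟩ : ∃ m, n = m + 1 := ⟨n - 1, by omega⟩
  have hm : 1 ≤ m := by omega
  have hm0 : (0 : ℝ) < m := by positivity
  obtain ⟨x, hx⟩ := containment hn hLc hL hLn h
  set lam : ℝ := ((m + 1 : ℕ) : ℝ) / (((m + 1 : ℕ) : ℝ) - 1) with hlam
  have hlam' : lam = (m + 1) / m := by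
    rw [hlam]; push_cast; congr 1; ring
  have hlam0 : 0 < lam := by rw [hlam']; positivity
  set t : ℝ := m / (m + 1) with ht
  have ht0 : 0 < t := by positivity
  have ht1 : t < 1 := by
    rw [ht, div_lt_one (by positivity)]
    linarith
  have htl : t * lam = 1 := by
    rw [ht, hlam']
    field_simp
  set K' : Set (E (m + 1)) := (fun k => x + k) '' K with hK'
  set C' : Set (E (m + 1)) := (fun y => lam • y) '' L with hC'
  have hK'c : IsCompact K' := hKc.image (by fun_prop)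
  have hC'c : IsCompact C' := hLc.image (by fun_prop)
  have hC'v : Convex ℝ C' := hL.smul lam
  have hsub : K' ⊆ C' := by
    rintro _ ⟨k, hk, rfl⟩
    obtain ⟨l, hl, he⟩ := hx k hk
    exact ⟨l, hl, he.symm⟩
  obtain ⟨v, _, hcov⟩ := h (EuclideanSpace.single 0 (1 : ℝ)) (by simp)
  have key := vol_bound h1D hm (pre_compact m hK'c) (pre_compact m hC'c) (pre_convex m hC'v)
    (preimage_mono hsub) ht0 ht1 (fun j => v j.succ - x j.succ) ?_
  · rw [(Psi_mp m).measure_preimage hK'c.measurableSet.nullMeasurableSet,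
      (Psi_mp m).measure_preimage hC'c.measurableSet.nullMeasurableSet] at key
    have e1 : volume K' = volume K := by
      have : K' = x +ᵥ K := rfl
      rw [this, measure_vadd]
    have e2 : volume C' = ENNReal.ofReal (lam ^ (m + 1)) * volume L := by
      have : C' = lam • L := rfl
      rw [this, Measure.addHaar_smul, finrank_euclideanSpace, Fintype.card_fin,
        abs_of_pos (pow_pos hlam0 _)]
    rw [e1, e2, ← mul_assoc, ← ENNReal.ofReal_mul] at key
    · refine key.trans (le_of_eq ?_)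
      congr 2
      have h3 : t ^ m * (m + 1 - m * t) * lam ^ (m + 1) = (t * lam) ^ m * ((m + 1 - m * t) * lam) := by
        rw [mul_pow]
        ring
      have h5 : (((m + 1 : ℕ) : ℝ)) - 1 = m := by push_cast; ring
      rw [h3, htl, one_pow, one_mul, hlam', ht, h5]
      push_cast
      field_simp
      ring
    · have : (m : ℝ) * t ≤ m * 1 := mul_le_mul_of_nonneg_left ht1.le hm0.le
      have h3 : (0 : ℝ) ≤ (m : ℝ) + 1 - m * t := by linarith
      positivity
  · intro p hp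
    obtain ⟨k, hk, he⟩ := hp
    obtain ⟨y, hy, s, hs⟩ := hcov k hk
    refine ⟨Phi m (lam • y), ?_, ?_⟩
    · rw [mem_preimage, Psi_Phi]
      exact ⟨y, hy, rfl⟩
    · funext j
      have h3 : p.2 j = x j.succ + k j.succ := by
        rw [← Psi_succ, ← he]
        rfl
      have h4 : k j.succ + v j.succ = y j.succ := by
        have := congrArg (fun z : E (m + 1) => z j.succ) hs
        simpa using this
      change p.2 j + (v j.succ - x j.succ) = t * (lam * y j.succ)
      rw [h3, ← mul_assoc, htl, one_mul, ← h4]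
      ring

end Pool.Agent.H881R4.Shadow
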