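import Pool.Agent.H881R4.Shadow1

/-!
# Covering shadows with one tight shadow
-/

set_option autoImplicit false

open Set

namespace Pool.Agent.H881R4.Shadow

theorem orth_two {n : ℕ} (hn : 3 ≤ n) (a b : E n) :
    ∃ e : E n, ‖e‖ = 1 ∧ inner ℝ e a = (0 : ℝ) ∧ inner ℝ e b = (0 : ℝ) := by
  classical
  have hne : (Submodule.span ℝ (({a, b} : Finset (E n)) : Set (E n)))ᗮ ≠ ⊥ := by
    intro h0
    have h1 := (Submodule.orthogonal_eq_bot_iff).1 h0
    have h2 : Module.finrank ℝ (Submodule.span ℝ (({a, b} : Finset (E n)) : Set (E n))) ≤ 2 :=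
      (finrank_span_finset_le_card (R := ℝ) ({a, b} : Finset (E n))).trans Finset.card_le_two
    rw [h1, finrank_top, finrank_euclideanSpace, Fintype.card_fin] at h2
    omega
  obtain ⟨w0, hw0, hw1⟩ := Submodule.exists_mem_ne_zero_of_ne_bot hne
  have hwn : ‖w0‖ ≠ 0 := norm_ne_zero_iff.2 hw1
  have ho : ∀ x ∈ ({a, b} : Finset (E n)), inner ℝ w0 x = (0 : ℝ) := by
    intro x hx
    rw [real_inner_comm]
    exact (Submodule.mem_orthogonal _ _).1 hw0 x (Submodule.subset_span hx)
  refine ⟨(‖w0‖)⁻¹ • w0, ?_, ?_, ?_⟩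
  · rw [norm_smul, norm_inv, norm_norm, inv_mul_cancel₀ hwn]
  · rw [real_inner_smul_left, ho a (by simp), mul_zero]
  · rw [real_inner_smul_left, ho b (by simp), mul_zero]

/-- **One tight shadow.** Let `n ≥ 3`, let `L` cover the shadows of `K` and suppose that for one
unit vector `u` the shadow of `L` is a translate of the shadow of `K`. Then `L` contains a translate
of `K`. -/
theorem tight {n : ℕ} (hn : 3 ≤ n) {K L : Set (E n)} (hKc : IsCompact K) (hKn : K.Nonempty)
    (hLc : IsCompact L) (hL : Convex ℝ L) (hLn : L.Nonempty) (h : Covers K L) (u : E n)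
    (hu : ‖u‖ = 1) (w : E n) (hw1 : ∀ x ∈ K, ∃ y ∈ L, ∃ s : ℝ, x + w = y + s • u)
    (hw2 : ∀ y ∈ L, ∃ x ∈ K, ∃ s : ℝ, x + w = y + s • u) :
    ∃ x0 : E n, ∀ k ∈ K, k + x0 ∈ L := by
  have hmaxK : ∀ N : E n, ∃ k ∈ K, ∀ x ∈ K, (inner ℝ x N : ℝ) ≤ inner ℝ k N := by
    intro N
    obtain ⟨k, hk, hmx⟩ := hKc.exists_isMaxOn hKn
      (f := fun y => (inner ℝ y N : ℝ)) (by fun_prop)
    exact ⟨k, hk, fun y hy => hmx hy⟩
  have hmaxL : ∀ N : E n, ∃ k ∈ L, ∀ x ∈ L, (inner ℝ x N : ℝ) ≤ inner ℝ k N := by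
    intro N
    obtain ⟨k, hk, hmx⟩ := hLc.exists_isMaxOn hLn
      (f := fun y => (inner ℝ y N : ℝ)) (by fun_prop)
    exact ⟨k, hk, fun y hy => hmx hy⟩
  choose κ hκ hκm using hmaxK
  choose ℓ hℓ hℓm using hmaxL
  set φ : E n → ℝ := fun N => (inner ℝ (κ N) N : ℝ) + inner ℝ w N - inner ℝ (ℓ N) N with hφ
  -- on the orthogonal complement of `u`
  have h1 : ∀ N : E n, (inner ℝ u N : ℝ) = 0 → φ N = 0 := by
    intro N hN
    apply le_antisymm
    · obtain ⟨y, hy, s, hs⟩ := hw1 (κ N) (hκ N)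
      have e1 : (inner ℝ (κ N) N : ℝ) + inner ℝ w N = inner ℝ y N := by
        rw [← inner_add_left, hs, inner_add_left, real_inner_smul_left, hN, mul_zero, add_zero]
      have := hℓm N y hy
      simp only [hφ]
      linarith
    · obtain ⟨x, hx, s, hs⟩ := hw2 (ℓ N) (hℓ N)
      have e1 : (inner ℝ x N : ℝ) + inner ℝ w N = inner ℝ (ℓ N) N := by
        rw [← inner_add_left, hs, inner_add_left, real_inner_smul_left, hN, mul_zero, add_zero]
      have := hκm N x hx
      simp only [hφ]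
      linarith
  -- two vectors with sum orthogonal to `u`
  have h2 : ∀ a b : E n, (inner ℝ u (a + b) : ℝ) = 0 → φ a + φ b ≤ 0 := by
    intro a b hab
    obtain ⟨e, he, hea, heb⟩ := orth_two hn a b
    obtain ⟨v, _, hcov⟩ := h e he
    have h3 : ∀ N : E n, (inner ℝ e N : ℝ) = 0 →
        (inner ℝ (κ N) N : ℝ) + inner ℝ v N ≤ inner ℝ (ℓ N) N := by
      intro N hN
      obtain ⟨y, hy, s, hs⟩ := hcov (κ N) (hκ N)
      have e1 : (inner ℝ (κ N) N : ℝ) + inner ℝ v N = inner ℝ y N := by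
        rw [← inner_add_left, hs, inner_add_left, real_inner_smul_left, hN, mul_zero, add_zero]
      rw [e1]
      exact hℓm N y hy
    have ha := h3 a hea
    have hb := h3 b heb
    have hc := h3 (-(a + b)) (by rw [inner_neg_right, inner_add_right, hea, heb]; simp)
    have hd := h1 (-(a + b)) (by rw [inner_neg_right, hab, neg_zero])
    simp only [hφ] at hd ⊢
    have e1 : (inner ℝ v (-(a + b)) : ℝ) = -(inner ℝ v a) - inner ℝ v b := by
      rw [inner_neg_right, inner_add_right]; ring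
    have e2 : (inner ℝ w (-(a + b)) : ℝ) = -(inner ℝ w a) - inner ℝ w b := by
      rw [inner_neg_right, inner_add_right]; ring
    rw [e1] at hc
    rw [e2] at hd
    linarith
  -- homogeneity
  have h4 : ∀ (t : ℝ) (N : E n), 0 < t → φ (t • N) = t * φ N := by
    intro t N ht
    have hK1 : (inner ℝ (κ (t • N)) (t • N) : ℝ) = t * inner ℝ (κ N) N := by
      apply le_antisymm
      · rw [real_inner_smul_right]
        exact mul_le_mul_of_nonneg_left (hκm N _ (hκ _)) ht.le
      · have := hκm (t • N) _ (hκ N)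
        rwa [real_inner_smul_right] at this
    have hL1 : (inner ℝ (ℓ (t • N)) (t • N) : ℝ) = t * inner ℝ (ℓ N) N := by
      apply le_antisymm
      · rw [real_inner_smul_right]
        exact mul_le_mul_of_nonneg_left (hℓm N _ (hℓ _)) ht.le
      · have := hℓm (t • N) _ (hℓ N)
        rwa [real_inner_smul_right] at this
    simp only [hφ]
    rw [hK1, hL1, real_inner_smul_right]
    ring
  have huu : (inner ℝ u u : ℝ) = 1 := by
    rw [real_inner_self_eq_norm_sq, hu]; norm_num
  -- the shift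
  set A : Set ℝ := φ '' {a | (inner ℝ u a : ℝ) = 1} with hA
  have hAn : A.Nonempty := ⟨φ u, u, huu, rfl⟩
  have hbd : ∀ b : E n, (inner ℝ u b : ℝ) = -1 → ∀ x ∈ A, x ≤ -φ b := by
    rintro b hb x ⟨a, ha, rfl⟩
    have ha' : (inner ℝ u a : ℝ) = 1 := ha
    have := h2 a b (by rw [inner_add_right, ha', hb]; ring)
    linarith
  have hAb : BddAbove A := ⟨-φ (-u), hbd (-u) (by rw [inner_neg_right, huu])⟩
  set τ : ℝ := sSup A with hτ
  have h5 : ∀ N : E n, φ N ≤ τ * inner ℝ u N := by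
    intro N
    rcases lt_trichotomy (inner ℝ u N : ℝ) 0 with hs | hs | hs
    · set s : ℝ := -(inner ℝ u N : ℝ) with hs'
      have hs0 : 0 < s := by linarith
      have hN : N = s • (s⁻¹ • N) := by rw [smul_smul, mul_inv_cancel₀ hs0.ne', one_smul]
      have h6 : (inner ℝ u (s⁻¹ • N) : ℝ) = -1 := by
        have : (inner ℝ u N : ℝ) = -s := by rw [hs']; ring
        rw [real_inner_smul_right, this]
        field_simp
      have h7 : τ ≤ -φ (s⁻¹ • N) := csSup_le hAn (hbd _ h6)
      have h8 : φ N = s * φ (s⁻¹ • N) := by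
        conv_lhs => rw [hN]
        exact h4 s _ hs0
      have h9 : (inner ℝ u N : ℝ) = -s := by rw [hs']; ring
      rw [h8, h9]
      nlinarith [mul_le_mul_of_nonneg_left h7 hs0.le]
    · rw [h1 N hs, hs, mul_zero]
    · set s : ℝ := (inner ℝ u N : ℝ) with hs'
      have hN : N = s • (s⁻¹ • N) := by rw [smul_smul, mul_inv_cancel₀ hs.ne', one_smul]
      have h6 : (inner ℝ u (s⁻¹ • N) : ℝ) = 1 := by
        rw [real_inner_smul_right, ← hs']
        field_simp
      have h7 : φ (s⁻¹ • N) ≤ τ := le_csSup hAb ⟨_, h6, rfl⟩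
      have h8 : φ N = s * φ (s⁻¹ • N) := by
        conv_lhs => rw [hN]
        exact h4 s _ hs
      rw [h8]
      nlinarith [mul_le_mul_of_nonneg_left h7 hs.le]
  refine ⟨w - τ • u, fun k hk => ?_⟩
  by_contra hcon
  obtain ⟨f, c, hf1, hf2⟩ := geometric_hahn_banach_closed_point hL hLc.isClosed hcon
  let N : E n := (InnerProductSpace.toDual ℝ (E n)).symm f
  have hfN : ∀ y, f y = inner ℝ y N := by
    intro y
    rw [real_inner_comm]
    exact (InnerProductSpace.toDual_symm_apply).symm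
  have h10 := hf1 _ (hℓ N)
  rw [hfN] at h10 hf2
  rw [inner_add_left, inner_sub_left, real_inner_smul_left] at hf2
  have h11 := hκm N k hk
  have h12 := h5 N
  simp only [hφ] at h12
  linarith

end Pool.Agent.H881R4.Shadow
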