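import Pool.Agent.H881R4.Shadow3

/-!
# Covering shadows of zonotopes and zonoids
-/

set_option autoImplicit false

open MeasureTheory Set
open scoped ENNReal Pointwise

namespace Pool.Agent.H881R4.Shadow

/-- adding a segment -/
def Seg (n : ℕ) : Prop := ∀ a : E n, ∃ sh : Set (E n) → ℝ≥0∞, (∀ M, IsCompact M → sh M ≠ ⊤) ∧
  (∀ M, IsCompact M → Convex ℝ M → ∀ ε : ℝ, 0 ≤ ε →
    volume (M + segment ℝ 0 (ε • a)) = volume M + ENNReal.ofReal ε * sh M) ∧
  (∀ (M M' : Set (E n)) (v : E n), (∀ x ∈ M, ∃ y ∈ M', ∃ s : ℝ, x + v = y + s • a) →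
    sh M ≤ sh M') ∧
  (∀ (M : Set (E n)) (r : ℝ), 0 < r → sh (r • M) = ENNReal.ofReal (r ^ (n - 1)) * sh M)

/-- the sum of the segments from `0` to the vectors of a list -/
def zt {n : ℕ} : List (E n) → Set (E n)
  | [] => {0}
  | a :: l => segment ℝ 0 a + zt l

theorem seg_eq {n : ℕ} (a : E n) : segment ℝ 0 a = (fun t : ℝ => t • a) '' Icc 0 1 := by
  rw [segment_eq_image']
  simp

theorem seg_compact {n : ℕ} (a : E n) : IsCompact (segment ℝ 0 a) := by
  rw [seg_eq]
  exact isCompact_Icc.image (by fun_prop)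

theorem zero_mem_seg {n : ℕ} (a : E n) : (0 : E n) ∈ segment ℝ 0 a := left_mem_segment ℝ 0 a

theorem zt_compact {n : ℕ} (l : List (E n)) : IsCompact (zt l) := by
  induction l with
  | nil => exact isCompact_singleton
  | cons a l ih => exact (seg_compact a).add ih

theorem zt_convex {n : ℕ} (l : List (E n)) : Convex ℝ (zt l) := by
  induction l with
  | nil => exact convex_singleton 0
  | cons a l ih => exact (convex_segment 0 a).add ih

theorem zero_mem_zt {n : ℕ} (l : List (E n)) : (0 : E n) ∈ zt l := by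
  induction l with
  | nil => rfl
  | cons a l ih => exact ⟨0, zero_mem_seg a, 0, ih, add_zero 0⟩

theorem zt_append {n : ℕ} (l l' : List (E n)) : zt (l ++ l') = zt l + zt l' := by
  induction l with
  | nil => simp [zt]
  | cons a l ih => simp only [List.cons_append, zt, ih, add_assoc]

theorem zt_norm {n : ℕ} (l : List (E n)) : ∀ z ∈ zt l, ‖z‖ ≤ (l.map norm).sum := by
  induction l with
  | nil =>
    intro z hz
    have : z = 0 := hz
    simp [this]
  | cons a l ih =>
    rintro _ ⟨x, hx, y, hy, rfl⟩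
    rw [seg_eq] at hx
    obtain ⟨t, ht, rfl⟩ := hx
    simp only [List.map_cons, List.sum_cons]
    refine (norm_add_le _ _).trans (add_le_add ?_ (ih y hy))
    rw [norm_smul, Real.norm_of_nonneg ht.1]
    exact mul_le_of_le_one_left (norm_nonneg _) ht.2

theorem sum_mem_zt {n : ℕ} : ∀ (N : ℕ) (f : Fin N → E n) (t : Fin N → ℝ),
    (∀ i, t i ∈ Icc (0 : ℝ) 1) → ∑ i, t i • f i ∈ zt (List.ofFn f) := by
  intro N
  induction N with
  | zero =>
    intro f t _
    simp [zt]
  | succ N ih =>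
    intro f t ht
    rw [List.ofFn_succ, Fin.sum_univ_succ]
    refine ⟨t 0 • f 0, ?_, _, ih (fun i => f i.succ) (fun i => t i.succ) (fun i => ht _), rfl⟩
    rw [seg_eq]
    exact ⟨t 0, ht 0, rfl⟩

section

variable {n : ℕ} {sh : E n → Set (E n) → ℝ≥0∞}

/-- the sum of the shadows -/
noncomputable def Sm (sh : E n → Set (E n) → ℝ≥0∞) (M : Set (E n)) (l : List (E n)) : ℝ≥0∞ :=
  (l.map fun a => sh a M).sum

theorem Sm_mono {M M' : Set (E n)} {l : List (E n)} (h : ∀ a ∈ l, sh a M ≤ sh a M') :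
    Sm sh M l ≤ Sm sh M' l := by
  induction l with
  | nil => simp [Sm]
  | cons a l ih =>
    unfold Sm at ih ⊢
    simp only [List.map_cons, List.sum_cons]
    exact add_le_add (h a (by simp)) (ih fun b hb => h b (by simp [hb]))

theorem Sm_top {M : Set (E n)} (l : List (E n)) (h : ∀ a, sh a M ≠ ⊤) : Sm sh M l ≠ ⊤ := by
  induction l with
  | nil => simp [Sm]
  | cons a l ih =>
    unfold Sm at ih ⊢
    simp only [List.map_cons, List.sum_cons]
    exact ENNReal.add_ne_top.2 ⟨h a, ih⟩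

theorem Sm_scale {M M' : Set (E n)} (l : List (E n)) (c : ℝ≥0∞) (h : ∀ a, sh a M = c * sh a M') :
    Sm sh M l = c * Sm sh M' l := by
  induction l with
  | nil => simp [Sm]
  | cons a l ih =>
    unfold Sm at ih ⊢
    simp only [List.map_cons, List.sum_cons]
    rw [ih, h a, mul_add]

theorem step (hv : ∀ a M, IsCompact M → Convex ℝ M → ∀ ε : ℝ, 0 ≤ ε →
      volume (M + segment ℝ 0 (ε • a)) = volume M + ENNReal.ofReal ε * sh a M)
    {M : Set (E n)} (hM : IsCompact M) (hMc : Convex ℝ M) {ε : ℝ} (hε : 0 ≤ ε) (a : E n)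
    (l : List (E n)) : volume (M + ε • zt (a :: l)) =
      volume (M + ε • zt l) + ENNReal.ofReal ε * sh a (M + ε • zt l) := by
  have e : M + ε • zt (a :: l) = (M + ε • zt l) + segment ℝ 0 (ε • a) := by
    have h1 : ε • segment ℝ (0 : E n) a = segment ℝ 0 (ε • a) := by
      rw [seg_eq, seg_eq]
      ext x
      constructor
      · rintro ⟨_, ⟨t, ht, rfl⟩, rfl⟩
        exact ⟨t, ht, smul_comm t ε a⟩
      · rintro ⟨t, ht, rfl⟩
        exact ⟨t • a, ⟨t, ht, rfl⟩, smul_comm ε t a⟩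
    change M + ε • (segment ℝ 0 a + zt l) = _
    rw [smul_add, h1, add_assoc, add_comm (segment ℝ 0 (ε • a))]
  rw [e]
  exact hv a _ (hM.add ((zt_compact l).smul ε)) (hMc.add ((zt_convex l).smul ε)) ε hε

theorem zt_sub {M : Set (E n)} {ε : ℝ} (a : E n) (l : List (E n)) :
    M + ε • zt l ⊆ M + ε • zt (a :: l) := by
  rintro _ ⟨x, hx, _, ⟨z, hz, rfl⟩, rfl⟩
  exact ⟨x, hx, _, ⟨z, ⟨0, zero_mem_seg a, z, hz, zero_add z⟩, rfl⟩, rfl⟩

theorem upper (hv : ∀ a M, IsCompact M → Convex ℝ M → ∀ ε : ℝ, 0 ≤ ε →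
      volume (M + segment ℝ 0 (ε • a)) = volume M + ENNReal.ofReal ε * sh a M)
    (hm : ∀ a M M', M ⊆ M' → sh a M ≤ sh a M')
    {M M' : Set (E n)} (hM : IsCompact M) (hMc : Convex ℝ M) {ε : ℝ} (hε : 0 ≤ ε) :
    ∀ l : List (E n), M + ε • zt l ⊆ M' →
      volume (M + ε • zt l) ≤ volume M + ENNReal.ofReal ε * Sm sh M' l := by
  intro l
  induction l with
  | nil =>
    intro _
    simp [zt, Sm]
  | cons a l ih =>
    intro hsub
    have hsub' := (zt_sub a l).trans hsub
    rw [step hv hM hMc hε]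
    have e : Sm sh M' (a :: l) = sh a M' + Sm sh M' l := by simp [Sm]
    rw [e, mul_add, add_comm (ENNReal.ofReal ε * sh a M'), ← add_assoc]
    exact add_le_add (ih hsub') (mul_le_mul_right (hm a _ _ hsub') _)

theorem lower (hv : ∀ a M, IsCompact M → Convex ℝ M → ∀ ε : ℝ, 0 ≤ ε →
      volume (M + segment ℝ 0 (ε • a)) = volume M + ENNReal.ofReal ε * sh a M)
    (hm : ∀ a M M', M ⊆ M' → sh a M ≤ sh a M')
    {M : Set (E n)} (hM : IsCompact M) (hMc : Convex ℝ M) {ε : ℝ} (hε : 0 ≤ ε) :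
    ∀ l : List (E n), volume M + ENNReal.ofReal ε * Sm sh M l ≤ volume (M + ε • zt l) := by
  intro l
  induction l with
  | nil => simp [zt, Sm]
  | cons a l ih =>
    rw [step hv hM hMc hε]
    have e : Sm sh M (a :: l) = sh a M + Sm sh M l := by simp [Sm]
    rw [e, mul_add, add_comm (ENNReal.ofReal ε * sh a M), ← add_assoc]
    refine add_le_add ih (mul_le_mul_right (hm a _ _ ?_) _)
    intro x hx
    exact ⟨x, hx, _, ⟨0, zero_mem_zt l, rfl⟩, by simp⟩

end

theorem pow_bound (m : ℕ) {x : ℝ} (hx : 0 ≤ x) :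
    (1 + x) ^ (m + 1) - 1 ≤ (m + 1) * x * (1 + x) ^ m := by
  induction m with
  | zero => simp
  | succ m ih =>
    have h1 : 1 ≤ (1 + x) ^ (m + 1) := one_le_pow₀ (by linarith)
    have e1 : (1 + x) ^ (m + 1 + 1) - 1 = (1 + x) * ((1 + x) ^ (m + 1) - 1) + x := by ring
    have e2 : ((m + 1 : ℕ) + 1 : ℝ) * x * (1 + x) ^ (m + 1) =
        (1 + x) * ((m + 1) * x * (1 + x) ^ m) + x * (1 + x) ^ (m + 1) := by
      push_cast
      ring
    rw [e1, e2]
    have h2 := mul_le_mul_of_nonneg_left ih (show (0 : ℝ) ≤ 1 + x by linarith)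
    have h3 := mul_le_mul_of_nonneg_left h1 hx
    linarith

/-- **Zonotopes.** -/
theorem zonotope {n : ℕ} (hS : Seg n) (hn : 2 ≤ n) (l : List (E n)) {L : Set (E n)}
    (hLc : IsCompact L) (hL : Convex ℝ L) (hLn : L.Nonempty) (h : Covers (zt l) L) :
    (volume (zt l)).toReal ≤ ((n : ℝ) / (n - 1)) * (volume L).toReal := by
  choose sh h1 h2 h3 h4 using hS
  obtain ⟨m, rfl⟩ : ∃ m, n = m + 1 := ⟨n - 1, by omega⟩
  have hm0 : (0 : ℝ) < m := by
    have : 1 ≤ m := by omega
    positivity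
  obtain ⟨x, hx⟩ := containment hn hLc hL hLn h
  set lam : ℝ := ((m + 1 : ℕ) : ℝ) / (((m + 1 : ℕ) : ℝ) - 1) with hlam
  have hlam' : lam = (m + 1) / m := by
    rw [hlam]; push_cast; congr 1; ring
  have hlam0 : 0 < lam := by rw [hlam']; positivity
  set Z : Set (E (m + 1)) := zt l with hZ
  have hZc : IsCompact Z := zt_compact l
  have hZv : Convex ℝ Z := zt_convex l
  have hmono : ∀ a (M M' : Set (E (m + 1))), M ⊆ M' → sh a M ≤ sh a M' := by
    intro a M M' hsub
    exact h3 a M M' 0 fun x hx => ⟨x, hsub hx, 0, by simp⟩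
  -- comparison of the shadows
  have hZL : Sm sh Z l ≤ Sm sh L l := by
    apply Sm_mono
    intro a _
    by_cases ha : a = 0
    · subst ha
      have := h2 0 Z hZc hZv 1 zero_le_one
      rw [smul_zero, segment_same, add_singleton] at this
      simp only [add_zero, image_id', ENNReal.ofReal_one, one_mul] at this
      have h5 : sh 0 Z = 0 := by
        have h6 : volume Z + 0 = volume Z + sh 0 Z := by rw [add_zero]; exact this
        exact ((ENNReal.add_right_inj hZc.measure_ne_top).1 h6).symm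
      rw [h5]
      exact zero_le
    · have hna : ‖a‖ ≠ 0 := norm_ne_zero_iff.2 ha
      obtain ⟨v, _, hcov⟩ := h (‖a‖⁻¹ • a) (by
        rw [norm_smul, norm_inv, norm_norm, inv_mul_cancel₀ hna])
      refine h3 a Z L v fun x hx => ?_
      obtain ⟨y, hy, s, hs⟩ := hcov x hx
      exact ⟨y, hy, s * ‖a‖⁻¹, by rw [hs, smul_smul]⟩
  set SZ : ℝ := (Sm sh Z l).toReal with hSZ
  set SL : ℝ := (Sm sh L l).toReal with hSL
  set VZ : ℝ := (volume Z).toReal with hVZ
  set VL : ℝ := (volume L).toReal with hVL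
  have hSZt : Sm sh Z l ≠ ⊤ := Sm_top l fun a => h1 a Z hZc
  have hSLt : Sm sh L l ≠ ⊤ := Sm_top l fun a => h1 a L hLc
  have hSS : SZ ≤ SL := ENNReal.toReal_mono hSLt hZL
  have hVZ0 : 0 ≤ VZ := ENNReal.toReal_nonneg
  have hVL0 : 0 ≤ VL := ENNReal.toReal_nonneg
  have hvol : ∀ (r : ℝ) (A : Set (E (m + 1))), 0 ≤ r →
      volume (r • A) = ENNReal.ofReal (r ^ (m + 1)) * volume A := by
    intro r A hr
    rw [Measure.addHaar_smul, finrank_euclideanSpace, Fintype.card_fin,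
      abs_of_nonneg (pow_nonneg hr _)]
  -- (A)
  have hA : ∀ ε : ℝ, 0 < ε → ((m : ℝ) + 1) * VZ ≤ (1 + ε) ^ m * SZ := by
    intro ε hε
    have e : Z + ε • Z = (1 + ε) • Z := by
      rw [hZv.add_smul zero_le_one hε.le, one_smul]
    have h5 := upper h2 hmono hZc hZv hε.le l (M' := (1 + ε) • Z) (by rw [← hZ, e])
    rw [← hZ, e, hvol _ _ (by linarith), Sm_scale l (ENNReal.ofReal ((1 + ε) ^ (m + 1 - 1)))
      (fun a => h4 a Z (1 + ε) (by linarith))] at h5
    have h6 := ENNReal.toReal_mono (ENNReal.add_ne_top.2 ⟨hZc.measure_ne_top,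
      ENNReal.mul_ne_top ENNReal.ofReal_ne_top (ENNReal.mul_ne_top ENNReal.ofReal_ne_top hSZt)⟩) h5
    rw [ENNReal.toReal_mul, ENNReal.toReal_add hZc.measure_ne_top
      (ENNReal.mul_ne_top ENNReal.ofReal_ne_top (ENNReal.mul_ne_top ENNReal.ofReal_ne_top hSZt)),
      ENNReal.toReal_mul, ENNReal.toReal_mul, ENNReal.toReal_ofReal (by positivity),
      ENNReal.toReal_ofReal hε.le, ENNReal.toReal_ofReal (by positivity)] at h6
    simp only [Nat.add_sub_cancel] at h6
    have h7 : 1 + ((m + 1 : ℕ) : ℝ) * ε ≤ (1 + ε) ^ (m + 1) :=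
      one_add_mul_le_pow (by linarith) (m + 1)
    push_cast at h7
    have h8 : ((m : ℝ) + 1) * VZ * ε ≤ (1 + ε) ^ m * SZ * ε := by
      nlinarith [mul_le_mul_of_nonneg_right h7 hVZ0]
    exact le_of_mul_le_mul_right h8 hε
  -- (C)
  have hC : ∀ ε : ℝ, 0 < ε → SL ≤ (m + 1) * lam * (1 + ε * lam) ^ m * VL := by
    intro ε hε
    have hel : 0 ≤ ε * lam := by positivity
    have h5 := lower h2 hmono hLc hL hε.le l
    have hsub : L + ε • zt l ⊆ (-(ε • x)) +ᵥ ((1 + ε * lam) • L) := by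
      rintro _ ⟨y, hy, _, ⟨z, hz, rfl⟩, rfl⟩
      obtain ⟨y', hy', he⟩ := hx z hz
      rw [hL.add_smul zero_le_one hel, one_smul]
      refine ⟨y + (ε * lam) • y', ⟨y, hy, _, ⟨y', hy', rfl⟩, rfl⟩, ?_⟩
      change -(ε • x) + (y + (ε * lam) • y') = y + ε • z
      rw [mul_smul, ← he, smul_add]
      abel
    have h6 : volume (L + ε • zt l) ≤ ENNReal.ofReal ((1 + ε * lam) ^ (m + 1)) * volume L := by
      calc volume (L + ε • zt l) ≤ volume ((-(ε • x)) +ᵥ ((1 + ε * lam) • L)) :=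
            measure_mono hsub
        _ = _ := by rw [measure_vadd, hvol _ _ (by linarith)]
    have h7 := ENNReal.toReal_mono (ENNReal.mul_ne_top ENNReal.ofReal_ne_top
      hLc.measure_ne_top) (h5.trans h6)
    rw [ENNReal.toReal_add hLc.measure_ne_top (ENNReal.mul_ne_top ENNReal.ofReal_ne_top hSLt),
      ENNReal.toReal_mul, ENNReal.toReal_mul, ENNReal.toReal_ofReal hε.le,
      ENNReal.toReal_ofReal (by positivity)] at h7
    have h8 := mul_le_mul_of_nonneg_right (pow_bound m hel) hVL0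
    have h9 : SL * ε ≤ ((m + 1) * lam * (1 + ε * lam) ^ m * VL) * ε := by
      nlinarith
    exact le_of_mul_le_mul_right h9 hε
  -- the limit
  have hfin : ∀ ε : ℝ, 0 < ε → ((m : ℝ) + 1) * VZ ≤
      (1 + ε) ^ m * ((m + 1) * lam * (1 + ε * lam) ^ m * VL) := by
    intro ε hε
    refine (hA ε hε).trans (mul_le_mul_of_nonneg_left (hSS.trans (hC ε hε)) (by positivity))
  have hlim : ((m : ℝ) + 1) * VZ ≤ (m + 1) * lam * VL := by
    have hcont : Filter.Tendsto (fun ε : ℝ => (1 + ε) ^ m * ((m + 1) * lam *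
        (1 + ε * lam) ^ m * VL)) (nhdsWithin 0 (Ioi 0))
        (nhds ((1 + 0) ^ m * ((m + 1) * lam * (1 + 0 * lam) ^ m * VL))) := by
      apply Filter.Tendsto.mono_left _ nhdsWithin_le_nhds
      apply Continuous.tendsto
      fun_prop
    have := ge_of_tendsto hcont (Filter.eventually_of_mem self_mem_nhdsWithin
      fun ε hε => hfin ε hε)
    simpa using this
  have hm1 : (0 : ℝ) < (m : ℝ) + 1 := by positivity
  have h10 : ((m : ℝ) + 1) * VZ ≤ (m + 1) * (lam * VL) := by rw [← mul_assoc]; exact hlim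
  exact le_of_mul_le_mul_left h10 hm1

end Pool.Agent.H881R4.Shadow
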