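import Pool.Agent.H881R4.Zono

/-!
# Covering shadows of zonoids
-/

set_option autoImplicit false

open MeasureTheory Set
open scoped ENNReal Pointwise

namespace Pool.Agent.H881R4.Shadow

/-- the zonotope `c + ∑ [0, a i]` -/
def zon {n N : ℕ} (c : E n) (a : Fin N → E n) : Set (E n) :=
  {x | ∃ t : Fin N → ℝ, (∀ i, 0 ≤ t i ∧ t i ≤ 1) ∧ x = c + ∑ i, t i • a i}

theorem mem_zt_sum {n : ℕ} : ∀ (N : ℕ) (f : Fin N → E n), ∀ z ∈ zt (List.ofFn f),
    ∃ t : Fin N → ℝ, (∀ i, 0 ≤ t i ∧ t i ≤ 1) ∧ z = ∑ i, t i • f i := by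
  intro N
  induction N with
  | zero =>
    intro f z hz
    have : z = 0 := by simpa [zt] using hz
    exact ⟨fun i => 0, fun i => i.elim0, by simp [this]⟩
  | succ N ih =>
    intro f z hz
    rw [List.ofFn_succ] at hz
    obtain ⟨x, hx, y, hy, rfl⟩ := hz
    rw [seg_eq] at hx
    obtain ⟨t0, ht0, rfl⟩ := hx
    obtain ⟨t, ht, rfl⟩ := ih (fun i => f i.succ) y hy
    refine ⟨Fin.cons t0 t, fun i => ?_, ?_⟩
    · refine Fin.cases ?_ (fun j => ?_) i
      · exact ht0
      · exact ht j
    · rw [Fin.sum_univ_succ]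
      simp

/-- **Zonoids.** -/
theorem zonoid {n : ℕ} (hS : Seg n) (hn : 2 ≤ n) {K L : Set (E n)} (hKc : IsCompact K)
    (hKn : K.Nonempty) (hLc : IsCompact L) (hL : Convex ℝ L) (hLn : L.Nonempty)
    (hZ : ∀ ε : ℝ, 0 < ε → ∃ (N : ℕ) (c : E n) (a : Fin N → E n),
      Metric.hausdorffDist K (zon c a) < ε)
    (h : Covers K L) :
    (volume K).toReal ≤ ((n : ℝ) / (n - 1)) * (volume L).toReal := by
  have hn1 : (0 : ℝ) < (n : ℝ) - 1 := by
    have : (2 : ℝ) ≤ n := by exact_mod_cast hn
    linarith
  have hn0 : (0 : ℝ) < n := by positivity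
  set lam : ℝ := (n : ℝ) / (n - 1) with hlam
  have hlam0 : 0 < lam := by positivity
  have main : ∀ δ : ℝ, 0 < δ →
      (volume K).toReal ≤ lam * (volume (Metric.cthickening δ L)).toReal := by
    intro δ hδ
    set ε : ℝ := δ / (1 + 2 * n) with hε
    have hε0 : 0 < ε := by positivity
    have hεδ : ε + n * (2 * ε) = δ := by
      rw [hε]
      field_simp
    obtain ⟨N, c, a, hd⟩ := hZ ε hε0
    set e : Fin n → E n := fun i => EuclideanSpace.single i (1 : ℝ) with he
    set cube : List (E n) := List.ofFn fun i => (2 * ε) • e i with hcube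
    set l' : List (E n) := List.ofFn a ++ cube with hl'
    set c' : E n := c - ε • ∑ i, e i with hc'
    have hzc : IsCompact (zon c a) := by
      have : zon c a = (fun z => c + z) '' zt (List.ofFn a) := by
        ext x
        constructor
        · rintro ⟨t, ht, rfl⟩
          exact ⟨_, sum_mem_zt N a t ht, rfl⟩
        · rintro ⟨z, hz, rfl⟩
          obtain ⟨t, ht, rfl⟩ := mem_zt_sum N a z hz
          exact ⟨t, ht, rfl⟩
      rw [this]
      exact (zt_compact _).image (by fun_prop)
    have hzn : (zon c a).Nonempty := ⟨c, fun _ => 0, fun _ => ⟨le_refl _, zero_le_one⟩, by simp⟩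
    have hfin : Metric.hausdorffEDist K (zon c a) ≠ ⊤ :=
      Metric.hausdorffEDist_ne_top_of_nonempty_of_bounded hKn hzn hKc.isBounded hzc.isBounded
    -- `K` is contained in the larger zonotope
    have hsub : K ⊆ c' +ᵥ zt l' := by
      intro x hx
      obtain ⟨z, ⟨t, ht, hz⟩, hxz⟩ := Metric.exists_dist_lt_of_hausdorffDist_lt hx hd hfin
      have hcoord : ∀ i, |(x - z) i| ≤ ε := by
        intro i
        have h1 : ‖(x - z) i‖ ≤ ‖x - z‖ := PiLp.norm_apply_le (x - z) i
        rw [Real.norm_eq_abs] at h1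
        rw [dist_eq_norm] at hxz
        linarith
      set τ : Fin n → ℝ := fun i => ((x - z) i + ε) / (2 * ε) with hτ
      have hτ1 : ∀ i, τ i ∈ Icc (0 : ℝ) 1 := by
        intro i
        have h1 := abs_le.1 (hcoord i)
        constructor
        · apply div_nonneg (by linarith [h1.1]) (by positivity)
        · rw [div_le_one (by positivity)]
          linarith [h1.2]
      have h3 : x - z = -(ε • ∑ i, e i) + ∑ i, τ i • ((2 * ε) • e i) := by
        have h4 : ∀ i, τ i • ((2 * ε) • e i) = (x - z) i • e i + ε • e i := by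
          intro i
          rw [smul_smul, hτ]
          simp only
          rw [div_mul_cancel₀ _ (by positivity), add_smul]
        simp only [h4]
        rw [Finset.sum_add_distrib, ← Finset.smul_sum]
        have h5 : ∑ i, (x - z) i • e i = x - z := by
          ext j
          simp [he, Pi.single_apply]
        rw [h5]
        abel
      refine ⟨(∑ i, t i • a i) + ∑ i, τ i • ((2 * ε) • e i), ?_, ?_⟩
      · rw [hl', zt_append]
        exact ⟨_, sum_mem_zt N a t ht, _, sum_mem_zt n (fun i => (2 * ε) • e i) τ hτ1, rfl⟩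
      · change c' + ((∑ i, t i • a i) + ∑ i, τ i • ((2 * ε) • e i)) = x
        have h6 : x = z + (x - z) := by abel
        rw [h6, h3, hz, hc']
        abel
    -- covering
    have hcov : Covers (zt l') (L + Metric.closedBall (0 : E n) δ) := by
      intro u hu
      obtain ⟨v, hv, hcv⟩ := h u hu
      refine ⟨c + v - (inner ℝ (c + v) u : ℝ) • u, ?_, ?_⟩
      · rw [inner_sub_left, real_inner_smul_left, real_inner_self_eq_norm_sq, hu]
        ring
      · intro z' hz'
        rw [hl', zt_append] at hz'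
        obtain ⟨w1, hw1, w2, hw2, rfl⟩ := hz'
        obtain ⟨t, ht, hw1'⟩ := mem_zt_sum N a w1 hw1
        have hw1z : c + w1 ∈ zon c a := ⟨t, ht, by rw [hw1']⟩
        obtain ⟨k, hk, hkd⟩ := Metric.exists_dist_lt_of_hausdorffDist_lt' hw1z hd hfin
        obtain ⟨y, hy, s, hs⟩ := hcv k hk
        have hw2n : ‖w2‖ ≤ n * (2 * ε) := by
          refine (zt_norm _ w2 hw2).trans (le_of_eq ?_)
          rw [hcube, List.map_ofFn, List.sum_ofFn]
          simp [he, norm_smul, abs_of_pos hε0]
        refine ⟨y + ((c + w1 - k) + w2), ⟨y, hy, _, ?_, rfl⟩,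
          s - inner ℝ (c + v) u, ?_⟩
        · rw [mem_closedBall_zero_iff]
          rw [dist_comm, dist_eq_norm] at hkd
          calc ‖c + w1 - k + w2‖ ≤ ‖c + w1 - k‖ + ‖w2‖ := norm_add_le _ _
            _ ≤ ε + n * (2 * ε) := add_le_add hkd.le hw2n
            _ = δ := hεδ
        · rw [sub_smul]
          have h7 : y = k + v - s • u := by rw [hs]; abel
          rw [h7]
          generalize (inner ℝ (c + v) u : ℝ) • u = g1
          generalize s • u = g2
          change w1 + w2 + (c + v - g1) = k + v - g2 + (c + w1 - k + w2) + (g2 - g1)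
          abel
    have hL'c : IsCompact (L + Metric.closedBall (0 : E n) δ) :=
      hLc.add (isCompact_closedBall 0 δ)
    have hL'v : Convex ℝ (L + Metric.closedBall (0 : E n) δ) :=
      hL.add (convex_closedBall 0 δ)
    have hL'n : (L + Metric.closedBall (0 : E n) δ).Nonempty :=
      hLn.add ⟨0, Metric.mem_closedBall_self hδ.le⟩
    have key := zonotope hS hn l' hL'c hL'v hL'n hcov
    rw [hLc.add_closedBall_zero hδ.le] at key
    refine le_trans ?_ key
    apply ENNReal.toReal_mono (zt_compact l').measure_ne_top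
    calc volume K ≤ volume (c' +ᵥ zt l') := measure_mono hsub
      _ = _ := measure_vadd _ _ _
  have ht1 := tendsto_measure_cthickening_of_isCompact (μ := (volume : Measure (E n))) hLc
  have ht2 := (ENNReal.tendsto_toReal hLc.measure_ne_top).comp ht1
  have ht3 : Filter.Tendsto (fun r : ℝ => lam * (volume (Metric.cthickening r L)).toReal)
      (nhdsWithin 0 (Ioi 0)) (nhds (lam * (volume L).toReal)) :=
    (ht2.const_mul lam).mono_left nhdsWithin_le_nhds
  exact ge_of_tendsto ht3 (Filter.eventually_of_mem self_mem_nhdsWithin fun δ hδ => main δ hδ)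

end Pool.Agent.H881R4.Shadow
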